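import Pool.Agent.U581.BS.Gen3
import Pool.Agent.U62.SC.Fam

/-!
# Partial Euler products on the line `Re s = 1`: local data of the processes
-/

set_option autoImplicit false
set_option linter.unusedSectionVars false

namespace Pool.Agent.U581.BS

open Finset Filter Topology Pool.Agent.X280.BP Pool.Agent.U62.SC MeasureTheory ProbabilityTheory
  Pool.Agent.U581.BM Pool.Agent.U581.FL
open Pool.Agent.Y722.HS (EM EB red)

open scoped BoundedContinuousFunction NNReal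

variable {n : ℕ} {a : ∀ p : ℕ, (Fin n → ZMod p) → ℝ} {G : ∀ p : ℕ, (Fin n → ZMod p) → Prop}
  {r C : ℝ}

open Classical in
/-- the logarithm of an Euler factor -/
noncomputable def uL (a : ∀ p : ℕ, (Fin n → ZMod p) → ℝ) (G : ∀ p : ℕ, (Fin n → ZMod p) → Prop)
    (t : ℝ) (p : ℕ) (c : Fin n → ZMod p) : ℝ :=
  if G p c then -Real.log ‖1 - (a p c : ℂ) * xx t p + (p : ℂ) * xx t p ^ 2‖ else 0

/-- its mean -/
noncomputable def muL (a : ∀ p : ℕ, (Fin n → ZMod p) → ℝ) (G : ∀ p : ℕ, (Fin n → ZMod p) → Prop)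
    (t : ℝ) (p : ℕ) : ℝ :=
  if h : p = 0 then 0 else haveI : NeZero p := ⟨h⟩; EM p (uL a G t p)

/-- the centred function -/
noncomputable def zL (a : ∀ p : ℕ, (Fin n → ZMod p) → ℝ) (G : ∀ p : ℕ, (Fin n → ZMod p) → Prop)
    (t : ℝ) (p : ℕ) (c : Fin n → ZMod p) : ℝ :=
  if 5 ≤ p then uL a G t p c - muL a G t p else 0

theorem muL_eq (t : ℝ) (p : ℕ) [hp : NeZero p] : muL a G t p = EM p (uL a G t p) := by
  unfold muL
  rw [dif_neg hp.out]

theorem pfacts {p : ℕ} (hp : p.Prime) (h5 : 5 ≤ p) :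
    0 < √(p : ℝ) ∧ √(p : ℝ) * √(p : ℝ) = p ∧ 2 ≤ √(p : ℝ) ∧ (0 : ℝ) < p ∧
      1 / (p : ℝ) ≤ 1 / √p ∧ 1 / ((p : ℝ) * √p) ≤ 1 / p := by
  obtain ⟨h0, h1, h2, h3, h4, h6⟩ := sqrt_facts hp h5
  refine ⟨h0, h1, h6, h4, one_div_le_one_div_of_le h0 h3, one_div_le_one_div_of_le h4 ?_⟩
  exact le_mul_of_one_le_right h4.le h2

theorem uL_le (D : Dat a G r C) {p : ℕ} (hp : p.Prime) (h5 : 5 ≤ p) (t : ℝ) (c : Fin n → ZMod p) :
    |uL a G t p c| ≤ 5 / √p := by
  classical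
  obtain ⟨h0, h1, h2, h4, h6, h7⟩ := pfacts hp h5
  have hp5 : (5 : ℝ) ≤ p := by exact_mod_cast h5
  unfold uL
  split_ifs with hG
  · have ha := D.hasse p hp h5 c
    obtain ⟨x, hx⟩ : ∃ x : ℝ, x = a p c := ⟨_, rfl⟩
    rw [← hx] at ha ⊢
    have h3 := eul_taylor hp5 ha (xx_norm hp.pos t)
    rw [xx_re hp.pos, xx_sq_re hp.pos] at h3
    obtain ⟨k1, hk1⟩ : ∃ k : ℝ, k = kp t p := ⟨_, rfl⟩
    obtain ⟨k2, hk2⟩ : ∃ k : ℝ, k = kp (2 * t) p := ⟨_, rfl⟩
    have hk1b : |k1| ≤ 1 := hk1 ▸ kp_abs t p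
    have hk2b : |k2| ≤ 1 := hk2 ▸ kp_abs (2 * t) p
    rw [← hk1, ← hk2] at h3
    have hx2 : x ^ 2 ≤ 4 * p := by
      rw [← sq_abs]
      calc |x| ^ 2 ≤ (2 * √p) ^ 2 := pow_le_pow_left₀ (abs_nonneg _) ha 2
        _ = 4 * (√p * √p) := by ring
        _ = 4 * p := by rw [h1]
    have e1 : |x * (k1 / p)| ≤ 2 * (1 / √p) := by
      rw [abs_mul, abs_div, abs_of_pos h4]
      calc |x| * (|k1| / p) ≤ 2 * √p * (1 / p) :=
            mul_le_mul ha (div_le_div_of_nonneg_right hk1b h4.le) (by positivity) (by positivity)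
        _ = 2 * (1 / √p) := by
            field_simp
            rw [sq, h1]
    have e2 : |(x ^ 2 - 2 * (p : ℝ)) * (k2 / (p : ℝ) ^ 2) / 2| ≤ 1 / (p : ℝ) := by
      have h8 : |x ^ 2 - 2 * (p : ℝ)| ≤ 2 * (p : ℝ) := by
        rw [abs_le]
        constructor <;> nlinarith [sq_nonneg x]
      rw [abs_div, abs_mul, abs_div, abs_of_pos (by positivity : (0 : ℝ) < (p : ℝ) ^ 2),
        abs_of_pos (by norm_num : (0 : ℝ) < 2)]
      calc |x ^ 2 - 2 * (p : ℝ)| * (|k2| / (p : ℝ) ^ 2) / 2 ≤ 2 * (p : ℝ) * (1 / (p : ℝ) ^ 2) / 2 := by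
            refine div_le_div_of_nonneg_right ?_ (by norm_num)
            exact mul_le_mul h8 (div_le_div_of_nonneg_right hk2b (by positivity)) (by positivity)
              (by positivity)
        _ = 1 / (p : ℝ) := by field_simp
    have e3 : (2 : ℝ) / ((p : ℝ) * √p) = 2 * (1 / ((p : ℝ) * √p)) := by ring
    rw [e3] at h3
    have e4 : -Real.log ‖1 - (x : ℂ) * xx t p + (p : ℂ) * xx t p ^ 2‖ =
        -(Real.log ‖1 - (x : ℂ) * xx t p + ((p : ℝ) : ℂ) * xx t p ^ 2‖ + x * (k1 / p) +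
          (x ^ 2 - 2 * p) * (k2 / (p : ℝ) ^ 2) / 2) + x * (k1 / p) +
          (x ^ 2 - 2 * p) * (k2 / (p : ℝ) ^ 2) / 2 := by
      push_cast
      ring
    rw [e4]
    refine (abs_add_le _ _).trans ((add_le_add (abs_add_le _ _) e2).trans ?_)
    rw [abs_neg]
    have e5 : 5 / √(p : ℝ) = 5 * (1 / √(p : ℝ)) := by ring
    rw [e5]
    linarith
  · rw [abs_zero]
    positivity

/-- the constant of the approximation -/
noncomputable def M0 (r C : ℝ) : ℝ := |r| + 8 + 2 * C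

theorem ms_b (D : Dat a G r C) {p : ℕ} (hp : p.Prime) (h5 : 5 ≤ p) : 0 ≤ ms a p ∧ ms a p ≤ 4 * p := by
  have hne : NeZero p := ⟨hp.ne_zero⟩
  rw [ms_eq]
  refine ⟨Pool.Agent.U62.RB.EM_nonneg' p _ fun c => sq_nonneg _, ?_⟩
  have h := EM_mono' p (fun c => a p c ^ 2) (fun _ => 4 * (p : ℝ)) fun c => sq_four D hp h5 c
  rwa [EM_const'] at h

theorem ma_b (D : Dat a G r C) {p : ℕ} (hp : p.Prime) (h5 : 5 ≤ p) : |ma a p| ≤ 2 * √p := by
  have hne : NeZero p := ⟨hp.ne_zero⟩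
  rw [ma_eq]
  have h := EM_abs_le p (a p) (fun _ => 2 * √(p : ℝ)) fun c => D.hasse p hp h5 c
  rwa [EM_const'] at h

theorem uL_near (D : Dat a G r C) {p : ℕ} (hp : p.Prime) (h5 : 5 ≤ p) (t : ℝ) (c : Fin n → ZMod p) :
    |uL a G t p c - kp t p / p * (a p c - ma a p)| ≤ M0 r C * (1 / p) := by
  classical
  obtain ⟨h0, h1, h2, h4, h6, h7⟩ := pfacts hp h5
  have hC := D.C1
  have h3 := near_term D hp h5 t c
  have e0 : uL a G t p c = (if G p c then -Real.log ‖1 - (a p c : ℂ) * xx t p +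
      (p : ℂ) * xx t p ^ 2‖ else 0) := by
    unfold uL
    congr
  rw [← e0] at h3
  obtain ⟨k1, hk1⟩ : ∃ k : ℝ, k = kp t p := ⟨_, rfl⟩
  obtain ⟨k2, hk2⟩ : ∃ k : ℝ, k = kp (2 * t) p := ⟨_, rfl⟩
  have hk1b : |k1| ≤ 1 := hk1 ▸ kp_abs t p
  have hk2b : |k2| ≤ 1 := hk2 ▸ kp_abs (2 * t) p
  rw [← hk1, ← hk2] at h3
  rw [← hk1]
  have e1 : |r * (k1 / p)| ≤ |r| * (1 / (p : ℝ)) := by
    rw [abs_mul, abs_div, abs_of_pos h4]
    gcongr
  have e2 : |1 / 2 * (k2 / (p : ℝ))| ≤ 1 / 2 * (1 / (p : ℝ)) := by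
    rw [abs_mul, abs_of_pos (by norm_num : (0 : ℝ) < 1 / 2), abs_div, abs_of_pos h4]
    gcongr
  have e3 : |k2 / (2 * p) * ((a p c ^ 2 - ms a p) / p)| ≤ 2 * (1 / (p : ℝ)) := by
    have h8 := ms_b D hp h5
    have h9 := sq_four D hp h5 c
    have h10 : |a p c ^ 2 - ms a p| ≤ 4 * p := by
      rw [abs_le]
      constructor <;> nlinarith [sq_nonneg (a p c)]
    rw [abs_mul, abs_div, abs_div, abs_of_pos h4, abs_of_pos (by positivity : (0 : ℝ) < 2 * p)]
    calc |k2| / (2 * p) * (|a p c ^ 2 - ms a p| / p) ≤ 1 / (2 * p) * (4 * p / p) := by gcongr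
      _ = 2 * (1 / (p : ℝ)) := by
          field_simp
          norm_num
  have e4 : (if G p c then (0 : ℝ) else 1) * (1 / (p : ℝ)) ≤ 1 / p := by
    split_ifs
    · rw [zero_mul]
      positivity
    · rw [one_mul]
  have e5 : (2 + 2 * C) * (1 / ((p : ℝ) * √p)) ≤ (2 + 2 * C) * (1 / p) :=
    mul_le_mul_of_nonneg_left h7 (by linarith)
  have e6 : uL a G t p c - k1 / p * (a p c - ma a p) =
      (uL a G t p c - (k1 / p * (a p c - ma a p) - r * (k1 / p) - 1 / 2 * (k2 / p) +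
        k2 / (2 * p) * ((a p c ^ 2 - ms a p) / p))) - r * (k1 / p) - 1 / 2 * (k2 / p) +
        k2 / (2 * p) * ((a p c ^ 2 - ms a p) / p) := by ring
  rw [e6]
  refine (abs_add_le _ _).trans ((add_le_add ((abs_sub _ _).trans (add_le_add (abs_sub _ _) e2)) e3).trans ?_)
  unfold M0
  have e7 : (|r| + 8 + 2 * C) * (1 / (p : ℝ)) = 3 * (1 / (p : ℝ)) + (2 + 2 * C) * (1 / p) +
      |r| * (1 / (p : ℝ)) + 1 * (1 / (p : ℝ)) + 2 * (1 / (p : ℝ)) := by ring
  rw [e7]
  have e8 : 0 ≤ 1 / (p : ℝ) := by positivity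
  linarith

theorem EM_cent (D : Dat a G r C) {p : ℕ} (hp : p.Prime) (k : ℝ) [NeZero p] :
    EM p (fun c => k * (a p c - ma a p)) = 0 := by
  rw [EM_mul' p k (fun c => a p c - ma a p), EM_sub' p (a p) (fun _ => ma a p), EM_const', ma_eq,
    sub_self, mul_zero]

theorem muL_le (D : Dat a G r C) {p : ℕ} (hp : p.Prime) (h5 : 5 ≤ p) (t : ℝ) :
    |muL a G t p| ≤ M0 r C * (1 / p) := by
  have hne : NeZero p := ⟨hp.ne_zero⟩
  have h := EM_abs_le p (fun c => uL a G t p c - kp t p / p * (a p c - ma a p))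
    (fun _ => M0 r C * (1 / p)) fun c => uL_near D hp h5 t c
  rwa [EM_const', EM_sub' p (uL a G t p) (fun c => kp t p / p * (a p c - ma a p)),
    EM_cent D hp, sub_zero, ← muL_eq] at h

theorem zL_near (D : Dat a G r C) {p : ℕ} (hp : p.Prime) (h5 : 5 ≤ p) (t : ℝ) (c : Fin n → ZMod p) :
    |zL a G t p c - kp t p / p * (a p c - ma a p)| ≤ 2 * M0 r C * (1 / p) := by
  unfold zL
  rw [if_pos h5]
  have h1 := uL_near D hp h5 t c
  have h2 := muL_le D hp h5 t
  have e : uL a G t p c - muL a G t p - kp t p / p * (a p c - ma a p) =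
      (uL a G t p c - kp t p / p * (a p c - ma a p)) - muL a G t p := by ring
  rw [e]
  refine (abs_sub _ _).trans ?_
  linarith

theorem zL_le (D : Dat a G r C) {p : ℕ} (hp : p.Prime) (t : ℝ) (c : Fin n → ZMod p) :
    |zL a G t p c| ≤ 10 / √p := by
  unfold zL
  split_ifs with h5
  · have hne : NeZero p := ⟨hp.ne_zero⟩
    have h2 : |muL a G t p| ≤ 5 / √p := by
      rw [muL_eq]
      have h := EM_abs_le p (uL a G t p) (fun _ => 5 / √(p : ℝ)) fun c => uL_le D hp h5 t c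
      rwa [EM_const'] at h
    refine (abs_sub _ _).trans ?_
    have h1 := uL_le D hp h5 t c
    have e : 10 / √(p : ℝ) = 5 / √(p : ℝ) + 5 / √(p : ℝ) := by ring
    rw [e]
    exact add_le_add h1 h2
  · rw [abs_zero]
    positivity

theorem zL_mean {p : ℕ} (t : ℝ) [NeZero p] : EM p (zL a G t p) = 0 := by
  unfold zL
  split_ifs with h5
  · rw [EM_sub' p (uL a G t p) (fun _ => muL a G t p), EM_const', muL_eq, sub_self]
  · exact EM_const' p 0

/-- the mean of the logarithm -/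
theorem muL_val (D : Dat a G r C) {p : ℕ} (hp : p.Prime) (h5 : 5 ≤ p) (t : ℝ) :
    |muL a G t p + r * (kp t p / p) + 1 / 2 * (kp (2 * t) p / p)| ≤
      (2 + 5 * C) * (1 / ((p : ℝ) * √p)) := by
  classical
  have hne : NeZero p := ⟨hp.ne_zero⟩
  obtain ⟨h0, h1, h2, h4, h6, h7⟩ := pfacts hp h5
  have hC := D.C1
  obtain ⟨k1, hk1⟩ : ∃ k : ℝ, k = kp t p := ⟨_, rfl⟩
  obtain ⟨k2, hk2⟩ : ∃ k : ℝ, k = kp (2 * t) p := ⟨_, rfl⟩
  have h := EM_abs_le p (fun c => uL a G t p c - (k1 / p * (a p c - ma a p) -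
      (r * (k1 / p) + 1 / 2 * (k2 / p)) + k2 / (2 * p) / p * (a p c ^ 2 - ms a p)))
    (fun c => 3 * (1 / (p : ℝ)) * (if G p c then (0 : ℝ) else 1) + (2 + 2 * C) * (1 / ((p : ℝ) * √p)))
    fun c => by
      have h3 := near_term D hp h5 t c
      have e0 : uL a G t p c = (if G p c then -Real.log ‖1 - (a p c : ℂ) * xx t p +
          (p : ℂ) * xx t p ^ 2‖ else 0) := by
        unfold uL
        congr
      rw [← e0, ← hk1, ← hk2] at h3
      refine le_trans (le_of_eq ?_) (h3.trans (le_of_eq ?_))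
      · congr 1
        ring
      · ring
  have e1 : EM p (fun c => uL a G t p c - (k1 / p * (a p c - ma a p) -
      (r * (k1 / p) + 1 / 2 * (k2 / p)) + k2 / (2 * p) / p * (a p c ^ 2 - ms a p))) =
      muL a G t p + r * k1 / p + 1 / 2 * k2 / p := by
    rw [EM_sub' p (uL a G t p) (fun c => k1 / p * (a p c - ma a p) -
      (r * (k1 / p) + 1 / 2 * (k2 / p)) + k2 / (2 * p) / p * (a p c ^ 2 - ms a p)),
      EM_add' p (fun c => k1 / p * (a p c - ma a p) - (r * (k1 / p) + 1 / 2 * (k2 / p)))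
        (fun c => k2 / (2 * p) / p * (a p c ^ 2 - ms a p)),
      EM_sub' p (fun c => k1 / p * (a p c - ma a p)) (fun _ => r * (k1 / p) + 1 / 2 * (k2 / p)),
      EM_cent D hp, EM_const', EM_mul' p _ (fun c => a p c ^ 2 - ms a p),
      EM_sub' p (fun c => a p c ^ 2) (fun _ => ms a p), EM_const', ms_eq, sub_self, ← muL_eq]
    ring
  have e2 : EM p (fun c => 3 * (1 / (p : ℝ)) * (if G p c then (0 : ℝ) else 1) +
      (2 + 2 * C) * (1 / ((p : ℝ) * √p))) ≤ 3 * (1 / (p : ℝ)) * (C / √p) +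
      (2 + 2 * C) * (1 / ((p : ℝ) * √p)) := by
    rw [EM_add' p (fun c => 3 * (1 / (p : ℝ)) * (if G p c then (0 : ℝ) else 1))
      (fun _ => (2 + 2 * C) * (1 / ((p : ℝ) * √p))), EM_const',
      EM_mul' p (3 * (1 / (p : ℝ))) (fun c => if G p c then (0 : ℝ) else 1)]
    have h8 : EM p (fun c => if G p c then (0 : ℝ) else 1) ≤ C / √p := by
      refine le_trans (le_of_eq ?_) (D.few p hp h5)
      congr 1
    have h9 : 3 * (1 / (p : ℝ)) * EM p (fun c => if G p c then (0 : ℝ) else 1) ≤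
        3 * (1 / (p : ℝ)) * (C / √p) := mul_le_mul_of_nonneg_left h8 (by positivity)
    linarith
  rw [e1] at h
  rw [← hk1, ← hk2]
  refine le_trans (le_of_eq ?_) ((h.trans e2).trans (le_of_eq ?_))
  · congr 1
    ring
  · field_simp
    ring

/-- the constant of the covariances -/
noncomputable def M1 (r C : ℝ) : ℝ := 28 * M0 r C + C + (|r| + C) ^ 2

theorem zL_cov (D : Dat a G r C) {p : ℕ} (hp : p.Prime) (h5 : 5 ≤ p) (s t : ℝ) [NeZero p] :
    |EM p (fun c => zL a G s p c * zL a G t p c) - kp s p * kp t p / p| ≤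
      M1 r C * (1 / ((p : ℝ) * √p)) := by
  obtain ⟨h0, h1, h2, h4, h6, h7⟩ := pfacts hp h5
  have hC := D.C1
  have hM0 : 0 ≤ M0 r C := by
    unfold M0
    positivity
  have hs1 : 1 ≤ √(p : ℝ) := by linarith
  obtain ⟨k1, hk1⟩ : ∃ k : ℝ, k = kp s p := ⟨_, rfl⟩
  obtain ⟨k2, hk2⟩ : ∃ k : ℝ, k = kp t p := ⟨_, rfl⟩
  have hk1b : |k1| ≤ 1 := hk1 ▸ kp_abs s p
  have hk2b : |k2| ≤ 1 := hk2 ▸ kp_abs t p
  have hA : ∀ c, |k2 / p * (a p c - ma a p)| ≤ 4 * (1 / √p) := by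
    intro c
    have h8 := D.hasse p hp h5 c
    have h9 := ma_b D hp h5
    rw [abs_mul, abs_div, abs_of_pos h4]
    calc |k2| / p * |a p c - ma a p| ≤ 1 / p * (2 * √p + 2 * √p) := by
          gcongr
          exact (abs_sub _ _).trans (add_le_add h8 h9)
      _ = 4 * (1 / √p) := by
          field_simp
          rw [sq, h1]
          ring
  have hE := EM_abs_le p (fun c => zL a G s p c * zL a G t p c -
      (k1 / p * (k2 / p)) * (a p c - ma a p) ^ 2)
    (fun _ => 28 * M0 r C * (1 / ((p : ℝ) * √p))) fun c => by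
      have h8 := zL_near D hp h5 s c
      have h9 := zL_near D hp h5 t c
      rw [← hk1] at h8
      rw [← hk2] at h9
      have h10 := zL_le D hp s c
      have e : zL a G s p c * zL a G t p c - (k1 / p * (k2 / p)) * (a p c - ma a p) ^ 2 =
          zL a G s p c * (zL a G t p c - k2 / p * (a p c - ma a p)) +
          (zL a G s p c - k1 / p * (a p c - ma a p)) * (k2 / p * (a p c - ma a p)) := by ring
      rw [e]
      refine (abs_add_le _ _).trans ?_
      rw [abs_mul, abs_mul]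
      calc |zL a G s p c| * |zL a G t p c - k2 / p * (a p c - ma a p)| +
          |zL a G s p c - k1 / p * (a p c - ma a p)| * |k2 / p * (a p c - ma a p)| ≤
          10 / √p * (2 * M0 r C * (1 / p)) + 2 * M0 r C * (1 / p) * (4 * (1 / √p)) :=
            add_le_add (mul_le_mul h10 h9 (abs_nonneg _) (by positivity))
              (mul_le_mul h8 (hA c) (abs_nonneg _) (by positivity))
        _ = 28 * M0 r C * (1 / ((p : ℝ) * √p)) := by
            field_simp
            ring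
  rw [EM_const', EM_sub' p (fun c => zL a G s p c * zL a G t p c)
    (fun c => (k1 / p * (k2 / p)) * (a p c - ma a p) ^ 2)] at hE
  have e1 : EM p (fun c => (k1 / p * (k2 / p)) * (a p c - ma a p) ^ 2) =
      k1 / p * (k2 / p) * (ms a p - ma a p ^ 2) := by
    rw [EM_mul' p (k1 / p * (k2 / p)) (fun c => (a p c - ma a p) ^ 2)]
    have e2 : (fun c => (a p c - ma a p) ^ 2) = fun c => a p c ^ 2 - (2 * ma a p * a p c - ma a p ^ 2) := by
      funext c
      ring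
    rw [e2, EM_sub' p (fun c => a p c ^ 2) (fun c => 2 * ma a p * a p c - ma a p ^ 2),
      EM_sub' p (fun c => 2 * ma a p * a p c) (fun _ => ma a p ^ 2), EM_const',
      EM_mul' p (2 * ma a p) (a p), ← ms_eq, ← ma_eq]
    ring
  rw [e1] at hE
  have h2' := D.mean p hp h5
  have h3' := D.sq p hp h5
  rw [← ma_eq p] at h2'
  rw [← ms_eq p] at h3'
  have h4' : |ma a p| ≤ |r| + C := by
    have e : ma a p = (ma a p + r) - r := by ring
    rw [e]
    refine (abs_sub _ _).trans ?_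
    have : C / √(p : ℝ) ≤ C := div_le_self (by linarith) hs1
    linarith
  have h5' : |ms a p - ma a p ^ 2 - p| ≤ (C + (|r| + C) ^ 2) * √p := by
    have e : ms a p - ma a p ^ 2 - p = (ms a p - p) - ma a p ^ 2 := by ring
    rw [e]
    refine (abs_sub _ _).trans ?_
    have h6 : |ma a p ^ 2| ≤ (|r| + C) ^ 2 := by
      rw [abs_pow]
      exact pow_le_pow_left₀ (abs_nonneg _) h4' 2
    have h7 : (|r| + C) ^ 2 ≤ (|r| + C) ^ 2 * √(p : ℝ) := le_mul_of_one_le_right (by positivity) hs1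
    rw [add_mul]
    linarith
  have e3 : |k1 / p * (k2 / p) * (ms a p - ma a p ^ 2) - k1 * k2 / p| ≤
      (C + (|r| + C) ^ 2) * (1 / ((p : ℝ) * √p)) := by
    have e : k1 / p * (k2 / p) * (ms a p - ma a p ^ 2) - k1 * k2 / p =
        (k1 * k2) / (p : ℝ) ^ 2 * (ms a p - ma a p ^ 2 - p) := by
      field_simp
    rw [e, abs_mul, abs_div, abs_mul, abs_of_pos (by positivity : (0 : ℝ) < (p : ℝ) ^ 2)]
    have h10 : |k1| * |k2| ≤ 1 := mul_le_one₀ hk1b (abs_nonneg _) hk2b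
    calc |k1| * |k2| / (p : ℝ) ^ 2 * |ms a p - ma a p ^ 2 - p| ≤
        1 / (p : ℝ) ^ 2 * ((C + (|r| + C) ^ 2) * √p) :=
          mul_le_mul (div_le_div_of_nonneg_right h10 (by positivity)) h5' (abs_nonneg _) (by positivity)
      _ = (C + (|r| + C) ^ 2) * (1 / ((p : ℝ) * √p)) := by
          field_simp
          rw [sq, h1]
  rw [← hk1, ← hk2]
  have e4 : EM p (fun c => zL a G s p c * zL a G t p c) - k1 * k2 / p =
      (EM p (fun c => zL a G s p c * zL a G t p c) - k1 / p * (k2 / p) * (ms a p - ma a p ^ 2)) +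
      (k1 / p * (k2 / p) * (ms a p - ma a p ^ 2) - k1 * k2 / p) := by ring
  rw [e4]
  refine (abs_add_le _ _).trans ((add_le_add hE e3).trans (le_of_eq ?_))
  unfold M1
  ring

end Pool.Agent.U581.BS
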