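import Pool.Agent.U581.BS.Crit

/-!
# Partial Euler products on the line `Re s = 1`: the invariance principle
-/

set_option autoImplicit false
set_option linter.unusedSectionVars false

namespace Pool.Agent.U581.BS

open Finset Filter Topology Pool.Agent.X280.BP Pool.Agent.U62.SC MeasureTheory ProbabilityTheory
  Pool.Agent.U581.BM Pool.Agent.U581.FL
open Pool.Agent.Y722.HS (EM EB red)

open scoped BoundedContinuousFunction NNReal

variable {n k : ℕ} {a : ∀ p : ℕ, (Fin n → ZMod p) → ℝ} {G : ∀ p : ℕ, (Fin n → ZMod p) → Prop}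
  {r C : ℝ}

/-- the weights -/
noncomputable def wt (t : ℝ) : ℝ := √2 * lam t

theorem wt_pos (t : ℝ) : 0 < wt t := mul_pos (by positivity) (lam_pos t)

theorem wt_le (t : ℝ) : wt t ≤ 3 / 2 := by
  unfold wt
  have h1 := lam_le t
  have h2 := lam_pos t
  have h3 : √(2 : ℝ) ≤ 3 / 2 := by
    rw [Real.sqrt_le_left (by norm_num)]
    norm_num
  nlinarith [Real.sqrt_nonneg (2 : ℝ)]

theorem wt_nu (t : ℝ) : wt t = 1 / √(Pool.Agent.U62.SC.nu t) := by
  unfold wt lam Pool.Agent.U62.SC.nu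
  split_ifs
  · rw [Real.sqrt_one, mul_one_div, div_self (by positivity)]
    norm_num
  · rw [mul_one, Real.sqrt_div (by norm_num), Real.sqrt_one, one_div_one_div]

/-- the local functions -/
noncomputable def zV (a : ∀ p : ℕ, (Fin n → ZMod p) → ℝ) (G : ∀ p : ℕ, (Fin n → ZMod p) → Prop)
    (t : Fin k → ℝ) (i : Fin k) (p : ℕ) (c : Fin n → ZMod p) : ℝ := wt (t i) * zL a G (t i) p c

theorem PP_Ico (T : ℕ) : PP T = ((Ico 0 (T + 1)).filter Nat.Prime).filter fun p => 5 ≤ p := by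
  ext p
  simp only [mem_PP, Finset.mem_filter, Finset.mem_Ico]
  constructor
  · rintro ⟨h1, h2, h3⟩
    exact ⟨⟨⟨Nat.zero_le _, by omega⟩, h2⟩, h3⟩
  · rintro ⟨⟨⟨_, h1⟩, h2⟩, h3⟩
    exact ⟨by omega, h2, h3⟩

theorem sum_PP (f : ℕ → ℝ) (hf : ∀ p, ¬ 5 ≤ p → f p = 0) (T : ℕ) :
    ∑ p ∈ (Ico 0 (T + 1)).filter Nat.Prime, f p = ∑ p ∈ PP T, f p := by
  rw [PP_Ico, Finset.sum_filter (p := fun p => 5 ≤ p)]
  refine Finset.sum_congr rfl fun p _ => ?_
  split_ifs with h
  · rfl
  · exact hf p h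

theorem zV_lt (t : Fin k → ℝ) (i : Fin k) {p : ℕ} (h5 : ¬ 5 ≤ p) (c : Fin n → ZMod p) :
    zV a G t i p c = 0 := by
  unfold zV zL
  rw [if_neg h5, mul_zero]

theorem EMt_lt (t : Fin k → ℝ) (i j : Fin k) {p : ℕ} (h5 : ¬ 5 ≤ p) :
    EMt p (fun c => zV a G t i p c * zV a G t j p c) = 0 := by
  have e : (fun c => zV a G t i p c * zV a G t j p c) = fun _ => (0 : ℝ) := by
    funext c
    rw [zV_lt t i h5, zero_mul]
  rw [e]
  unfold EMt
  split_ifs with h
  · rfl
  · haveI : NeZero p := ⟨h⟩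
    exact EM_const' p 0

theorem zV_cov (D : Dat a G r C) (t : Fin k → ℝ) (ht0 : ∀ i, 0 ≤ t i) (hti : Function.Injective t)
    (i j : Fin k) : ∃ B : ℝ, 0 ≤ B ∧ ∀ x : ℕ,
      |∑ p ∈ (Ico 0 x).filter Nat.Prime, EMt p (fun c => zV a G t i p c * zV a G t j p c) -
        (if i = j then LL 0 x else 0)| ≤ B := by
  have hC := D.C1
  obtain ⟨B1, hB10, hB1⟩ := cov_sum k t ht0 hti i j
  obtain ⟨C1, hC10, hC1⟩ := sum_three_half
  obtain ⟨C2, hC2, hLL⟩ := LL_Lg
  have hM0 : 0 ≤ M0 r C := by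
    unfold M0
    positivity
  have hM1 : 0 ≤ M1 r C := by
    unfold M1
    positivity
  refine ⟨9 / 4 * M1 r C * C1 + 2 * B1 + C2 + LL 0 4, by
    have := LL_mono 0 (Nat.zero_le 4)
    have h0 : LL 0 0 = 0 := by unfold LL; simp
    rw [h0] at this
    positivity, fun x => ?_⟩
  have hLL4 : 0 ≤ LL 0 4 := by
    unfold LL
    positivity
  rcases Nat.lt_or_ge x 4 with hx | hx
  · have e : ∑ p ∈ (Ico 0 x).filter Nat.Prime, EMt p (fun c => zV a G t i p c * zV a G t j p c) = 0 := by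
      refine Finset.sum_eq_zero fun p hp => EMt_lt t i j ?_
      have := (Finset.mem_Ico.1 (Finset.mem_filter.1 hp).1).2
      omega
    rw [e, zero_sub, abs_neg]
    have h1 : |if i = j then LL 0 x else 0| ≤ LL 0 4 := by
      split_ifs
      · rw [abs_of_nonneg (by unfold LL; positivity)]
        exact LL_mono 0 hx.le
      · rw [abs_zero]
        exact hLL4
    have : 0 ≤ 9 / 4 * M1 r C * C1 + 2 * B1 + C2 := by positivity
    linarith
  · obtain ⟨T, rfl⟩ : ∃ T, x = T + 1 := ⟨x - 1, by omega⟩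
    have hT : 3 ≤ T := by omega
    rw [sum_PP _ (fun p h5 => EMt_lt t i j h5)]
    have h1 : |∑ p ∈ PP T, EMt p (fun c => zV a G t i p c * zV a G t j p c) -
        2 * ∑ p ∈ PP T, lam (t i) * lam (t j) * (kp (t i) p * kp (t j) p / p)| ≤
        9 / 4 * M1 r C * C1 := by
      rw [Finset.mul_sum, ← Finset.sum_sub_distrib]
      refine (Finset.abs_sum_le_sum_abs _ _).trans ?_
      refine le_trans ?_ (mul_le_mul_of_nonneg_left (hC1 (PP T)) (by positivity))
      rw [Finset.mul_sum]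
      refine Finset.sum_le_sum fun p hp => ?_
      obtain ⟨_, hpp, h5⟩ := mem_PP.1 hp
      haveI hne : NeZero p := ⟨hpp.ne_zero⟩
      have h2 := zL_cov D hpp h5 (t i) (t j)
      have e1 : (fun c => zV a G t i p c * zV a G t j p c) =
          fun c => (wt (t i) * wt (t j)) * (zL a G (t i) p c * zL a G (t j) p c) := by
        funext c
        unfold zV
        ring
      rw [e1, EMt_eq, EM_mul' p (wt (t i) * wt (t j)) (fun c => zL a G (t i) p c * zL a G (t j) p c)]
      have e2 : 2 * (lam (t i) * lam (t j) * (kp (t i) p * kp (t j) p / p)) =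
          (wt (t i) * wt (t j)) * (kp (t i) p * kp (t j) p / p) := by
        unfold wt
        have : √(2 : ℝ) * √2 = 2 := Real.mul_self_sqrt (by norm_num)
        calc 2 * (lam (t i) * lam (t j) * (kp (t i) p * kp (t j) p / p)) =
            (√2 * √2) * (lam (t i) * lam (t j) * (kp (t i) p * kp (t j) p / p)) := by rw [this]
          _ = _ := by ring
      rw [e2, ← mul_sub, abs_mul, abs_of_pos (mul_pos (wt_pos _) (wt_pos _))]
      have h3 : wt (t i) * wt (t j) ≤ 9 / 4 := by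
        have h4 := wt_le (t i)
        have h5 := wt_le (t j)
        calc wt (t i) * wt (t j) ≤ 3 / 2 * (3 / 2) :=
              mul_le_mul h4 h5 (wt_pos _).le (by norm_num)
          _ = 9 / 4 := by norm_num
      calc wt (t i) * wt (t j) * |EM p (fun c => zL a G (t i) p c * zL a G (t j) p c) -
          kp (t i) p * kp (t j) p / p| ≤ 9 / 4 * (M1 r C * (1 / ((p : ℝ) * √p))) :=
            mul_le_mul h3 h2 (abs_nonneg _) (by norm_num)
        _ = _ := by ring
    have h2 := hB1 T hT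
    have h3 := hLL T hT
    have h4 : |(if i = j then Lg T else 0) - (if i = j then LL 0 (T + 1) else 0)| ≤ C2 := by
      split_ifs
      · rw [abs_sub_comm]
        exact h3
      · simpa using hC2
    have e : ∑ p ∈ PP T, EMt p (fun c => zV a G t i p c * zV a G t j p c) -
        (if i = j then LL 0 (T + 1) else 0) =
        (∑ p ∈ PP T, EMt p (fun c => zV a G t i p c * zV a G t j p c) -
          2 * ∑ p ∈ PP T, lam (t i) * lam (t j) * (kp (t i) p * kp (t j) p / p)) +
        2 * (∑ p ∈ PP T, lam (t i) * lam (t j) * (kp (t i) p * kp (t j) p / p) -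
          if i = j then 1 / 2 * Real.log (Real.log T) else 0) +
        ((if i = j then Lg T else 0) - (if i = j then LL 0 (T + 1) else 0)) := by
      by_cases hij : i = j
      · simp only [if_pos hij]
        unfold Lg
        ring
      · simp only [if_neg hij]
        ring
    rw [e]
    have h6 : |2 * (∑ p ∈ PP T, lam (t i) * lam (t j) * (kp (t i) p * kp (t j) p / p) -
          if i = j then 1 / 2 * Real.log (Real.log T) else 0)| ≤ 2 * B1 := by
      rw [abs_mul, abs_of_pos (by norm_num : (0 : ℝ) < 2)]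
      linarith
    refine (abs_add_le _ _).trans ((add_le_add ((abs_add_le _ _).trans (add_le_add h1 h6)) h4).trans ?_)
    linarith

theorem zV_vs (D : Dat a G r C) (t : Fin k → ℝ) (ht0 : ∀ i, 0 ≤ t i) (hti : Function.Injective t) :
    ∃ K1, VS (zV a G t) 15 K1 := by
  choose B hB0 hB using fun i j => zV_cov D t ht0 hti i j
  refine ⟨∑ i, ∑ j, B i j, by norm_num, fun i => ⟨by norm_num, fun p hp c => ?_, fun p hp _ => ?_⟩,
    Finset.sum_nonneg fun i _ => Finset.sum_nonneg fun j _ => hB0 i j, fun i j x => ?_⟩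
  · unfold zV
    rw [abs_mul, abs_of_pos (wt_pos _)]
    calc wt (t i) * |zL a G (t i) p c| ≤ 3 / 2 * (10 / √p) :=
          mul_le_mul (wt_le _) (zL_le D hp _ _) (abs_nonneg _) (by norm_num)
      _ = 15 / √p := by ring
  · unfold zV
    rw [EM_mul' p (wt (t i)) (zL a G (t i) p), zL_mean, mul_zero]
  · refine (hB i j x).trans ?_
    refine le_trans ?_ (Finset.single_le_sum (f := fun i => ∑ j, B i j)
      (fun i _ => Finset.sum_nonneg fun j _ => hB0 i j) (Finset.mem_univ i))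
    exact Finset.single_le_sum (f := fun j => B i j) (fun j _ => hB0 i j) (Finset.mem_univ j)

/-- the drift -/
noncomputable def dr (r t : ℝ) : ℝ := if t = 0 then r + 1 / 2 else 0

theorem mean_sum (D : Dat a G r C) (t : ℝ) : ∃ B : ℝ, 0 ≤ B ∧ ∀ T : ℕ, 2 ≤ T →
    |∑ p ∈ PP T, muL a G t p + dr r t * Lg T| ≤ B := by
  have hC := D.C1
  obtain ⟨C1, hC10, hC1⟩ := sum_three_half
  obtain ⟨B1, hB10, hB1⟩ : ∃ B1 : ℝ, 0 ≤ B1 ∧ ∀ T : ℕ, 3 ≤ T →
      |dr r t * Lg T - (r * ∑ p ∈ PP T, kp t p / p + 1 / 2 * ∑ p ∈ PP T, kp (2 * t) p / p)| ≤ B1 := by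
    by_cases ht : t = 0
    · obtain ⟨B, hB0, hB⟩ := PP_inv
      refine ⟨|r + 1 / 2| * B, by positivity, fun T hT => ?_⟩
      subst ht
      unfold dr Lg
      rw [if_pos rfl, mul_zero]
      simp only [kp_zero]
      have e : (r + 1 / 2) * Real.log (Real.log T) - (r * ∑ p ∈ PP T, 1 / (p : ℝ) + 1 / 2 * ∑ p ∈ PP T, 1 / (p : ℝ)) =
          -((r + 1 / 2) * (∑ p ∈ PP T, 1 / (p : ℝ) - Real.log (Real.log T))) := by ring
      rw [e, abs_neg, abs_mul]
      exact mul_le_mul_of_nonneg_left (hB T hT) (abs_nonneg _)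
    · obtain ⟨B, hB0, hB⟩ := PP_cos ht
      obtain ⟨B', hB'0, hB'⟩ := PP_cos (t := 2 * t) (mul_ne_zero two_ne_zero ht)
      refine ⟨|r| * B + 1 / 2 * B', by positivity, fun T _ => ?_⟩
      unfold dr
      rw [if_neg ht, zero_mul, zero_sub, abs_neg]
      refine (abs_add_le _ _).trans ?_
      rw [abs_mul, abs_mul, abs_of_pos (by norm_num : (0 : ℝ) < 1 / 2)]
      exact add_le_add (mul_le_mul_of_nonneg_left (hB T) (abs_nonneg _)) (mul_le_mul_of_nonneg_left (hB' T) (by norm_num))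
  refine ⟨(2 + 5 * C) * C1 + B1 + |dr r t * Lg 2|, by positivity, fun T hT2 => ?_⟩
  rcases Nat.lt_or_ge T 3 with hT | hT
  · have : T = 2 := by omega
    subst this
    have e : PP 2 = ∅ := by
      ext p
      rw [mem_PP]
      constructor
      · rintro ⟨h1, _, h2⟩
        omega
      · intro h
        exact absurd h (Finset.notMem_empty _)
    rw [e, Finset.sum_empty, zero_add]
    have : 0 ≤ (2 + 5 * C) * C1 + B1 := by positivity
    linarith
  · have h1 : |∑ p ∈ PP T, muL a G t p + (r * ∑ p ∈ PP T, kp t p / p +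
        1 / 2 * ∑ p ∈ PP T, kp (2 * t) p / p)| ≤ (2 + 5 * C) * C1 := by
      rw [Finset.mul_sum, Finset.mul_sum, ← Finset.sum_add_distrib, ← Finset.sum_add_distrib]
      refine (Finset.abs_sum_le_sum_abs _ _).trans ?_
      refine le_trans ?_ (mul_le_mul_of_nonneg_left (hC1 (PP T)) (by positivity))
      rw [Finset.mul_sum]
      refine Finset.sum_le_sum fun p hp => ?_
      obtain ⟨_, hpp, h5⟩ := mem_PP.1 hp
      rw [← add_assoc]
      exact muL_val D hpp h5 t
    have h2 := hB1 T hT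
    have e : ∑ p ∈ PP T, muL a G t p + dr r t * Lg T =
        (∑ p ∈ PP T, muL a G t p + (r * ∑ p ∈ PP T, kp t p / p +
          1 / 2 * ∑ p ∈ PP T, kp (2 * t) p / p)) +
        (dr r t * Lg T - (r * ∑ p ∈ PP T, kp t p / p + 1 / 2 * ∑ p ∈ PP T, kp (2 * t) p / p)) := by
      ring
    rw [e]
    have h3 := abs_nonneg (dr r t * Lg 2)
    exact (abs_add_le _ _).trans (by linarith)

variable [MeasurableSpace C(unitInterval, ℝ)] [BorelSpace C(unitInterval, ℝ)]
  {Ω : Type*} [MeasurableSpace Ω] {μ : Measure Ω} [IsProbabilityMeasure μ]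
  {W : Fin k → ℝ≥0 → Ω → ℝ}

/-- **the invariance principle on the line `Re s = 1`** -/
theorem crit_main (D : Dat a G r C) (t : Fin k → ℝ) (ht0 : ∀ i, 0 ≤ t i) (hti : Function.Injective t)
    (hW : IndBrown W μ) (F : (Fin k → C(unitInterval, ℝ)) →ᵇ ℝ) {ε : ℝ} (hε : 0 < ε) :
    ∃ K : ℕ, ∀ y H : ℕ, K ≤ y → y ^ K ≤ H →
      |EB H (fun c => F (fun i => lpath (fun m => (lel a G m (t i) c + dr r (t i) * Lg m) /
        √(Pool.Agent.U62.SC.nu (t i))) y)) - ∫ ω, F (fun i => bpath (W i) ω) ∂μ| ≤ ε := by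
  obtain ⟨K1, hV⟩ := zV_vs D t ht0 hti
  choose B hB0 hB using fun i => mean_sum D (t i)
  refine vs_main hV (fun i m c => (lel a G m (t i) c + dr r (t i) * Lg m) / √(Pool.Agent.U62.SC.nu (t i)))
    (K0 := ∑ i, 3 / 2 * B i) (Finset.sum_nonneg fun i _ => mul_nonneg (by norm_num) (hB0 i)) ?_ hW F hε
  intro i m c hm
  have e1 : (lel a G m (t i) c + dr r (t i) * Lg m) / √(Pool.Agent.U62.SC.nu (t i)) =
      wt (t i) * (lel a G m (t i) c + dr r (t i) * Lg m) := by
    rw [wt_nu]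
    ring
  have e2 : SS (zV a G t i) 0 (m + 1) c = wt (t i) * (lel a G m (t i) c - ∑ p ∈ PP m, muL a G (t i) p) := by
    unfold SS
    rw [sum_PP (fun p => zV a G t i p (red p c)) (fun p h5 => zV_lt t i h5 _)]
    unfold lel
    rw [← Finset.sum_sub_distrib, Finset.mul_sum]
    refine Finset.sum_congr rfl fun p hp => ?_
    obtain ⟨_, hpp, h5⟩ := mem_PP.1 hp
    unfold zV zL uL
    rw [if_pos h5]
  rw [e1, e2, ← mul_sub, abs_mul, abs_of_pos (wt_pos _)]
  have e3 : lel a G m (t i) c + dr r (t i) * Lg m - (lel a G m (t i) c - ∑ p ∈ PP m, muL a G (t i) p) =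
      ∑ p ∈ PP m, muL a G (t i) p + dr r (t i) * Lg m := by ring
  rw [e3]
  refine (mul_le_mul (wt_le (t i)) (hB i m hm) (abs_nonneg _) (by norm_num)).trans ?_
  exact Finset.single_le_sum (f := fun i => 3 / 2 * B i)
    (fun i _ => mul_nonneg (by norm_num) (hB0 i)) (Finset.mem_univ i)

end Pool.Agent.U581.BS
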