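import Pool.Agent.U581.BS.Node
import Pool.Agent.U581.FL.Main
import Pool.Agent.U62.BM.Cut

/-!
# Characteristic functions of vectors of processes on the double logarithmic scale
-/

set_option autoImplicit false
set_option linter.unusedSectionVars false

namespace Pool.Agent.U581.BS

open Finset Filter Topology Pool.Agent.Y722.HS Pool.Agent.X280.BP MeasureTheory ProbabilityTheory
  Pool.Agent.U581.BM Pool.Agent.U581.FL

variable {ι : Type} [Fintype ι] [DecidableEq ι] {k : ℕ} {Z : Fin k → ∀ p : ℕ, (ι → ZMod p) → ℝ}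
  {B K1 : ℝ}

/-- local data of a vector of processes -/
structure VS (Z : Fin k → ∀ p : ℕ, (ι → ZMod p) → ℝ) (B K1 : ℝ) : Prop where
  one : 1 ≤ B
  sys : ∀ a, Sys (Z a) B
  K10 : 0 ≤ K1
  cov : ∀ a b x, |∑ p ∈ (Ico 0 x).filter Nat.Prime, EMt p (fun c => Z a p c * Z b p c) -
    (if a = b then LL 0 x else 0)| ≤ K1

theorem LL_Lg' : ∃ C : ℝ, 0 ≤ C ∧ ∀ y : ℕ, 2 ≤ y → |LL 0 (y + 1) - Lg y| ≤ C := by
  obtain ⟨C, hC, h⟩ := LL_Lg
  refine ⟨C + |LL 0 3 - Lg 2|, by positivity, fun y hy => ?_⟩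
  rcases Nat.lt_or_ge y 3 with h3 | h3
  · have : y = 2 := by omega
    subst this
    norm_num
    exact hC
  · have := h y h3
    have h4 : 0 ≤ |LL 0 3 - Lg 2| := abs_nonneg _
    linarith

open Classical in
/-- the node of a time -/
noncomputable def nd (y : ℕ) (t : unitInterval) : ℕ :=
  if h : 3 ≤ y then Classical.choose (node_time h t) else 0

theorem nd_spec {y : ℕ} (hy : 3 ≤ y) (t : unitInterval) :
    2 ≤ nd y t ∧ nd y t < y ∧ Lg (nd y t) ≤ t * Lg y ∧ t * Lg y ≤ Lg (nd y t + 1) := by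
  unfold nd
  rw [dif_pos hy]
  exact Classical.choose_spec (node_time hy t)

theorem nd_LL {C : ℝ} (hC : ∀ y : ℕ, 2 ≤ y → |LL 0 (y + 1) - Lg y| ≤ C) {y : ℕ} (hy : 3 ≤ y)
    (t : unitInterval) : |LL 0 (nd y t + 1) - t * Lg y| ≤ C + 1 := by
  obtain ⟨h1, h2, h3, h4⟩ := nd_spec hy t
  have h5 := (Lg_step h1).2
  have h6 := abs_le.1 (hC _ h1)
  rw [abs_le]
  constructor <;> linarith

theorem LL_min (m n : ℕ) : LL 0 (min m n + 1) = min (LL 0 (m + 1)) (LL 0 (n + 1)) := by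
  rcases le_total m n with h | h
  · rw [min_eq_left h, min_eq_left (LL_mono 0 (by omega))]
  · rw [min_eq_right h, min_eq_right (LL_mono 0 (by omega))]

theorem LL_min_lim (s t : unitInterval) :
    Tendsto (fun y : ℕ => LL 0 (min (nd y s) (nd y t) + 1) / Lg y) atTop
      (𝓝 (min (s : ℝ) (t : ℝ))) := by
  obtain ⟨C, hC, h⟩ := LL_Lg'
  rw [tendsto_iff_norm_sub_tendsto_zero]
  have hz : Tendsto (fun y : ℕ => (C + 1) / Lg y) atTop (𝓝 0) := tendsto_const_nhds.div_atTop tendsto_Lg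
  refine squeeze_zero' (Eventually.of_forall fun y => norm_nonneg _) ?_ hz
  filter_upwards [eventually_ge_atTop 3] with y hy
  have hL := Lg_pos hy
  have h1 := nd_LL h hy s
  have h2 := nd_LL h hy t
  have e : LL 0 (min (nd y s) (nd y t) + 1) / Lg y - min (s : ℝ) (t : ℝ) =
      (min (LL 0 (nd y s + 1)) (LL 0 (nd y t + 1)) - min (s * Lg y) (t * Lg y)) / Lg y := by
    rw [LL_min, ← min_mul_of_nonneg _ _ hL.le]
    field_simp
  rw [e, Real.norm_eq_abs, abs_div, abs_of_pos hL]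
  apply div_le_div_of_nonneg_right _ hL.le
  refine (abs_min_sub_min_le_max _ _ _ _).trans ?_
  exact max_le h1 h2

/-- the weights -/
noncomputable def wv (y N : ℕ) (θ : ℕ → ℝ) (p : ℕ) : ℝ :=
  ∑ i ∈ Finset.range (N + 1), θ i * (if p ≤ nd y (pt N i) then 1 else 0)

theorem wv_le (y N : ℕ) (θ : ℕ → ℝ) (p : ℕ) : |wv y N θ p| ≤ ∑ i ∈ Finset.range (N + 1), |θ i| := by
  unfold wv
  refine (Finset.abs_sum_le_sum_abs _ _).trans (Finset.sum_le_sum fun i _ => ?_)
  split_ifs <;> simp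

theorem sum_cut (f : ℕ → ℝ) {m y : ℕ} (hm : m ≤ y) :
    ∑ p ∈ (Ico 0 (y + 1)).filter Nat.Prime, (if p ≤ m then (1 : ℝ) else 0) * f p =
      ∑ p ∈ (Ico 0 (m + 1)).filter Nat.Prime, f p := by
  have h1 : (Ico 0 (m + 1)).filter Nat.Prime =
      ((Ico 0 (y + 1)).filter Nat.Prime).filter fun p => p ≤ m := by
    ext p
    simp only [Finset.mem_filter, Finset.mem_Ico]
    constructor
    · rintro ⟨⟨_, h1⟩, h2⟩
      exact ⟨⟨⟨Nat.zero_le _, by omega⟩, h2⟩, by omega⟩
    · rintro ⟨⟨⟨_, h1⟩, h2⟩, h3⟩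
      exact ⟨⟨Nat.zero_le _, by omega⟩, h2⟩
  conv_rhs => rw [h1, Finset.sum_filter]
  refine Finset.sum_congr rfl fun p _ => ?_
  split_ifs <;> simp

/-- the local functions of a linear combination -/
noncomputable def Zc (Z : Fin k → ∀ p : ℕ, (ι → ZMod p) → ℝ) (N : ℕ) (θ : Fin k → ℕ → ℝ) (y p : ℕ)
    (c : ι → ZMod p) : ℝ := ∑ a, wv y N (θ a) p / √(Lg y) * Z a p c

theorem SS_Zc (N : ℕ) (θ : Fin k → ℕ → ℝ) {y : ℕ} (hy : 3 ≤ y) (c : ι → ℤ) :
    SS (Zc Z N θ y) 0 (y + 1) c =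
      ∑ a, ∑ i ∈ Finset.range (N + 1), θ a i * (SS (Z a) 0 (nd y (pt N i) + 1) c / √(Lg y)) := by
  unfold SS Zc
  rw [Finset.sum_comm]
  refine Finset.sum_congr rfl fun a _ => ?_
  have e : ∀ p, wv y N (θ a) p / √(Lg y) * Z a p (red p c) = ∑ i ∈ Finset.range (N + 1),
      θ a i / √(Lg y) * ((if p ≤ nd y (pt N i) then (1 : ℝ) else 0) * Z a p (red p c)) := by
    intro p
    unfold wv
    rw [Finset.sum_div, Finset.sum_mul]
    refine Finset.sum_congr rfl fun i _ => ?_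
    ring
  simp_rw [e]
  rw [Finset.sum_comm]
  refine Finset.sum_congr rfl fun i _ => ?_
  rw [← Finset.mul_sum, sum_cut (fun p => Z a p (red p c)) (nd_spec hy _).2.1.le]
  ring

theorem vv_Zc (N : ℕ) (θ : Fin k → ℕ → ℝ) {y : ℕ} (hy : 3 ≤ y) :
    ∑ p ∈ (Ico 0 (y + 1)).filter Nat.Prime, vv (Zc Z N θ y) p =
      ∑ a, ∑ b, ∑ i ∈ Finset.range (N + 1), ∑ j ∈ Finset.range (N + 1), θ a i * θ b j *
        ((∑ p ∈ (Ico 0 (min (nd y (pt N i)) (nd y (pt N j)) + 1)).filter Nat.Prime,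
          EMt p (fun c => Z a p c * Z b p c)) / Lg y) := by
  have hL := Lg_pos hy
  have e1 : ∀ p ∈ (Ico 0 (y + 1)).filter Nat.Prime, vv (Zc Z N θ y) p =
      ∑ a, ∑ b, ∑ i ∈ Finset.range (N + 1), ∑ j ∈ Finset.range (N + 1), θ a i * θ b j / Lg y *
        ((if p ≤ min (nd y (pt N i)) (nd y (pt N j)) then (1 : ℝ) else 0) *
          EMt p (fun c => Z a p c * Z b p c)) := by
    intro p hp
    have hpp := (Finset.mem_filter.mp hp).2
    have : NeZero p := ⟨hpp.ne_zero⟩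
    rw [vv_eq]
    have e2 : (fun c => Zc Z N θ y p c ^ 2) = fun c => ∑ a, ∑ b,
        (wv y N (θ a) p / √(Lg y)) * (wv y N (θ b) p / √(Lg y)) * (Z a p c * Z b p c) := by
      funext c
      unfold Zc
      rw [sq, Finset.sum_mul]
      refine Finset.sum_congr rfl fun a _ => ?_
      rw [Finset.mul_sum]
      refine Finset.sum_congr rfl fun b _ => ?_
      ring
    rw [e2, EM_sumF]
    refine Finset.sum_congr rfl fun a _ => ?_
    rw [EM_sumF]
    refine Finset.sum_congr rfl fun b _ => ?_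
    rw [EM_mulF, EMt_eq]
    have e3 : wv y N (θ a) p / √(Lg y) * (wv y N (θ b) p / √(Lg y)) =
        wv y N (θ a) p * wv y N (θ b) p / Lg y := by
      rw [div_mul_div_comm, Real.mul_self_sqrt hL.le]
    rw [e3]
    unfold wv
    rw [Finset.sum_mul_sum, Finset.sum_div, Finset.sum_mul]
    refine Finset.sum_congr rfl fun i _ => ?_
    rw [Finset.sum_div, Finset.sum_mul]
    refine Finset.sum_congr rfl fun j _ => ?_
    have e4 : (if p ≤ min (nd y (pt N i)) (nd y (pt N j)) then (1 : ℝ) else 0) =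
        (if p ≤ nd y (pt N i) then 1 else 0) * (if p ≤ nd y (pt N j) then 1 else 0) := by
      by_cases h1 : p ≤ nd y (pt N i) <;> by_cases h2 : p ≤ nd y (pt N j) <;> simp [h1, h2]
    rw [e4]
    ring
  rw [Finset.sum_congr rfl e1, Finset.sum_comm]
  refine Finset.sum_congr rfl fun a _ => ?_
  rw [Finset.sum_comm]
  refine Finset.sum_congr rfl fun b _ => ?_
  rw [Finset.sum_comm]
  refine Finset.sum_congr rfl fun i _ => ?_
  rw [Finset.sum_comm]
  refine Finset.sum_congr rfl fun j _ => ?_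
  rw [← Finset.mul_sum, sum_cut (fun p => EMt p (fun c => Z a p c * Z b p c))
    ((min_le_left _ _).trans (nd_spec hy _).2.1.le)]
  ring

/-- the limit of the variance -/
theorem var_lim (h : VS Z B K1) (N : ℕ) (θ : Fin k → ℕ → ℝ) :
    Tendsto (fun y : ℕ => ∑ p ∈ (Ico 0 (y + 1)).filter Nat.Prime, vv (Zc Z N θ y) p) atTop
      (𝓝 (∑ a, qform N (θ a))) := by
  have hcov : ∀ (a b : Fin k) (s t : unitInterval), Tendsto (fun y : ℕ =>
      (∑ p ∈ (Ico 0 (min (nd y s) (nd y t) + 1)).filter Nat.Prime,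
        EMt p (fun c => Z a p c * Z b p c)) / Lg y) atTop
      (𝓝 (if a = b then min (s : ℝ) (t : ℝ) else 0)) := by
    intro a b s t
    have hz : Tendsto (fun y : ℕ => K1 / Lg y) atTop (𝓝 0) := tendsto_const_nhds.div_atTop tendsto_Lg
    have h1 : Tendsto (fun y : ℕ => (if a = b then LL 0 (min (nd y s) (nd y t) + 1) else 0) / Lg y)
        atTop (𝓝 (if a = b then min (s : ℝ) (t : ℝ) else 0)) := by
      split_ifs
      · exact LL_min_lim s t
      · simp
    have h2 : Tendsto (fun y : ℕ => (∑ p ∈ (Ico 0 (min (nd y s) (nd y t) + 1)).filter Nat.Prime,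
        EMt p (fun c => Z a p c * Z b p c)) / Lg y -
        (if a = b then LL 0 (min (nd y s) (nd y t) + 1) else 0) / Lg y) atTop (𝓝 0) := by
      rw [tendsto_zero_iff_norm_tendsto_zero]
      refine squeeze_zero' (Eventually.of_forall fun y => norm_nonneg _) ?_ hz
      filter_upwards [eventually_ge_atTop 3] with y hy
      have hL := Lg_pos hy
      rw [← sub_div, Real.norm_eq_abs, abs_div, abs_of_pos hL]
      exact div_le_div_of_nonneg_right (h.cov a b _) hL.le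
    have h3 := h2.add h1
    rw [zero_add] at h3
    refine h3.congr fun y => ?_
    ring
  have e : ∑ a, qform N (θ a) = ∑ a, ∑ b, ∑ i ∈ Finset.range (N + 1), ∑ j ∈ Finset.range (N + 1),
      θ a i * θ b j * (if a = b then min ((pt N i : unitInterval) : ℝ) ((pt N j : unitInterval) : ℝ)
        else 0) := by
    refine Finset.sum_congr rfl fun a _ => ?_
    rw [Finset.sum_eq_single a]
    · simp only [if_true]
      rfl
    · intro b _ hb
      simp only [if_neg (Ne.symm hb), mul_zero, Finset.sum_const_zero]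
    · intro ha
      exact absurd (Finset.mem_univ a) ha
  rw [e]
  have h4 : Tendsto (fun y : ℕ => ∑ a, ∑ b, ∑ i ∈ Finset.range (N + 1), ∑ j ∈ Finset.range (N + 1),
      θ a i * θ b j * ((∑ p ∈ (Ico 0 (min (nd y (pt N i)) (nd y (pt N j)) + 1)).filter Nat.Prime,
          EMt p (fun c => Z a p c * Z b p c)) / Lg y)) atTop (𝓝 (∑ a, ∑ b,
      ∑ i ∈ Finset.range (N + 1), ∑ j ∈ Finset.range (N + 1), θ a i * θ b j *
      (if a = b then min ((pt N i : unitInterval) : ℝ) ((pt N j : unitInterval) : ℝ) else 0))) :=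
    tendsto_finsetSum _ fun a _ => tendsto_finsetSum _ fun b _ => tendsto_finsetSum _ fun i _ =>
      tendsto_finsetSum _ fun j _ => (hcov a b _ _).const_mul _
  refine h4.congr' ?_
  filter_upwards [eventually_ge_atTop 3] with y hy
  exact (vv_Zc N θ hy).symm

theorem SS_add (Z0 : ∀ p : ℕ, (ι → ZMod p) → ℝ) {a b d : ℕ} (h1 : a ≤ b) (h2 : b ≤ d) (c : ι → ℤ) :
    SS Z0 a b c + SS Z0 b d c = SS Z0 a d c := by
  unfold SS
  rw [Finset.sum_filter, Finset.sum_filter, Finset.sum_filter]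
  exact Finset.sum_Ico_consecutive _ h1 h2

theorem SS_one {Z0 : ∀ p : ℕ, (ι → ZMod p) → ℝ} (hS : Sys Z0 B) (m : ℕ) (c : ι → ℤ) :
    |SS Z0 m (m + 1) c| ≤ B := by
  have hB : 0 ≤ B := zero_le_one.trans hS.one_le
  unfold SS
  rw [Finset.sum_filter, Nat.Ico_succ_singleton, Finset.sum_singleton]
  split_ifs with hp
  · refine (hS.bd m hp _).trans ?_
    exact div_le_self hB (Real.one_le_sqrt.2 (by exact_mod_cast hp.one_lt.le))
  · rw [abs_zero]
    exact hB

/-- **the characteristic functions** -/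
theorem fdd_vs (h : VS Z B K1) (Q : Fin k → ℕ → (ι → ℤ) → ℝ) {K0 : ℝ}
    (hQ : ∀ a y c, 2 ≤ y → |Q a y c - SS (Z a) 0 (y + 1) c| ≤ K0) (N : ℕ) (θ : Fin k → ℕ → ℝ)
    {ε : ℝ} (hε : 0 < ε) : ∃ K : ℕ, ∀ᶠ y : ℕ in atTop, ∀ H : ℕ, y ^ K ≤ H →
      ‖EBc H (fun c => Complex.exp (((∑ a, ∑ i ∈ Finset.range (N + 1),
        θ a i * lpath (fun n => Q a n c) y (pt N i) : ℝ) : ℂ) * Complex.I)) -
        ((Real.exp (-((∑ a, qform N (θ a)) / 2)) : ℝ) : ℂ)‖ ≤ ε := by
  have hB0 : 0 < B := lt_of_lt_of_le one_pos h.one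
  obtain ⟨C1, hC1, hLL⟩ := LL_Lg
  set W := TH N θ with hW
  have hW0 : 0 ≤ W := TH_nn N θ
  set W1 : ℝ := W + 1 with hW1
  have hW10 : 0 < W1 := by linarith
  have hsL : Tendsto (fun y : ℕ => √(Lg y)) atTop atTop := Real.tendsto_sqrt_atTop.comp tendsto_Lg
  have hz : ∀ K : ℝ, Tendsto (fun y : ℕ => K / √(Lg y)) atTop (𝓝 0) := fun K =>
    tendsto_const_nhds.div_atTop hsL
  have hmain := clt_tri (Zc Z N θ) (fun y p => W1 * B / √p / √(Lg y)) (B := 1)
    (W := 2 * (W1 * B) ^ 2) (v := ∑ a, qform N (θ a)) (m := 0) le_rfl (by positivity)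
    (Finset.sum_nonneg fun a _ => qform_nn N (θ a)) ?_ ?_ ?_ ?_ ?_ (var_lim h N θ)
    (fun y c => ∑ a, ∑ i ∈ Finset.range (N + 1), θ a i * lpath (fun n => Q a n c) y (pt N i))
    (fun y => W * (K0 + B) / √(Lg y)) (hz _) ?_ 1 hε
  · obtain ⟨K, hK⟩ := hmain
    refine ⟨K, ?_⟩
    filter_upwards [hK] with y hy H hH
    have h1 := hy H hH
    simp only [one_mul, one_pow, mul_zero, Complex.ofReal_zero, zero_mul, Complex.exp_zero] at h1
    exact h1
  · filter_upwards [eventually_ge_atTop 3] with y hy p hp c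
    have hpp := (Finset.mem_filter.mp hp).2
    have hL0 := Lg_pos hy
    have hs0 : 0 < √(Lg y) := Real.sqrt_pos.2 hL0
    have hp0 : 0 < √(p : ℝ) := Real.sqrt_pos.2 (by exact_mod_cast hpp.pos)
    unfold Zc
    refine (Finset.abs_sum_le_sum_abs _ _).trans ?_
    calc ∑ a, |wv y N (θ a) p / √(Lg y) * Z a p c| ≤
        ∑ a, (∑ i ∈ Finset.range (N + 1), |θ a i|) * (B / √p / √(Lg y)) := by
          refine Finset.sum_le_sum fun a _ => ?_
          rw [abs_mul, abs_div, abs_of_pos hs0]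
          have h1 := wv_le y N (θ a) p
          have h2 := (h.sys a).bd p hpp c
          calc |wv y N (θ a) p| / √(Lg y) * |Z a p c| ≤
              (∑ i ∈ Finset.range (N + 1), |θ a i|) / √(Lg y) * (B / √p) := by gcongr
            _ = _ := by ring
      _ = W * (B / √p / √(Lg y)) := by
          rw [← Finset.sum_mul]
          rfl
      _ ≤ W1 * (B / √p / √(Lg y)) := by
          apply mul_le_mul_of_nonneg_right (by linarith) (by positivity)
      _ = _ := by ring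
  · filter_upwards [tendsto_Lg.eventually_ge_atTop 1,
      (hz (W1 * B)).eventually (ge_mem_nhds (show (0 : ℝ) < 1 by norm_num))] with y hy hy2 p hp
    have hpp := (Finset.mem_filter.mp hp).2
    have hp1 : (1 : ℝ) ≤ √(p : ℝ) := Real.one_le_sqrt.2 (by exact_mod_cast hpp.one_lt.le)
    refine le_trans ?_ hy2
    have hs0 : 0 < √(Lg y) := Real.sqrt_pos.2 (by linarith)
    gcongr
    exact div_le_self (by positivity) hp1
  · refine Eventually.of_forall fun y p hp _ => ?_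
    have hpp := (Finset.mem_filter.mp hp).2
    have e : Zc Z N θ y p = fun c => ∑ a, wv y N (θ a) p / √(Lg y) * Z a p c := rfl
    rw [e, EM_sumF]
    refine Finset.sum_eq_zero fun a _ => ?_
    rw [EM_mulF, (h.sys a).mean p hpp, mul_zero]
  · filter_upwards [tendsto_Lg.eventually_ge_atTop (C1 + 1), eventually_ge_atTop 3] with y hy hy3
    have hL0 : 0 < Lg y := by linarith
    have hLLle : LL 0 (y + 1) ≤ 2 * Lg y := by
      have := (abs_le.mp (hLL y hy3)).2
      linarith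
    have e : ∑ p ∈ (Ico 0 (y + 1)).filter Nat.Prime, (W1 * B / √(p : ℝ) / √(Lg y)) ^ 2 =
        (W1 * B) ^ 2 / Lg y * LL 0 (y + 1) := by
      unfold LL
      rw [Finset.mul_sum]
      refine Finset.sum_congr rfl fun p _ => ?_
      rw [div_pow, div_pow, Real.sq_sqrt hL0.le, Real.sq_sqrt (by positivity)]
      field_simp
    rw [e]
    calc (W1 * B) ^ 2 / Lg y * LL 0 (y + 1) ≤ (W1 * B) ^ 2 / Lg y * (2 * Lg y) := by gcongr
      _ = 2 * (W1 * B) ^ 2 := by field_simp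
  · set T : ℝ := ∑' n : ℕ, 1 / ((n : ℝ) * √n) with hT
    have hT0 : 0 ≤ T := tsum_nonneg fun n => by positivity
    have hlim : Tendsto (fun y : ℕ => (W1 * B) ^ 3 * T / √(Lg y)) atTop (𝓝 0) := hz _
    refine squeeze_zero' ?_ ?_ hlim
    · refine Eventually.of_forall fun y => Finset.sum_nonneg fun p _ => ?_
      have : 0 ≤ W1 * B / √(p : ℝ) / √(Lg y) := by positivity
      positivity
    · filter_upwards [tendsto_Lg.eventually_ge_atTop 1] with y hy
      have hL0 : 0 < Lg y := by linarith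
      have hs0 : 0 < √(Lg y) := Real.sqrt_pos.2 hL0
      have hs1 : 1 ≤ √(Lg y) := Real.one_le_sqrt.2 hy
      have h3 : ∀ p ∈ (Ico 0 (y + 1)).filter Nat.Prime, (W1 * B / √(p : ℝ) / √(Lg y)) ^ 3 ≤
          (W1 * B) ^ 3 / √(Lg y) * (1 / ((p : ℝ) * √p)) := by
        intro p hp
        have hpp := (Finset.mem_filter.mp hp).2
        have hp1 : (1 : ℝ) ≤ p := by exact_mod_cast hpp.one_lt.le
        have hsq1 : 1 ≤ √(p : ℝ) := Real.one_le_sqrt.2 hp1
        have hsq0 : 0 < √(p : ℝ) := by linarith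
        have hss : √(p : ℝ) * √(p : ℝ) = p := Real.mul_self_sqrt (by linarith)
        have k1 : (W1 * B / √(p : ℝ) / √(Lg y)) ^ 3 =
            (W1 * B) ^ 3 * (1 / ((p : ℝ) * √p)) * (1 / √(Lg y) ^ 3) := by
          rw [div_pow, div_pow, show √(p : ℝ) ^ 3 = (√(p : ℝ) * √(p : ℝ)) * √(p : ℝ) by ring, hss]
          ring
        have k2 : 1 / √(Lg y) ^ 3 ≤ 1 / √(Lg y) := by
          apply one_div_le_one_div_of_le hs0
          calc √(Lg y) = √(Lg y) ^ 1 := (pow_one _).symm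
            _ ≤ √(Lg y) ^ 3 := pow_le_pow_right₀ hs1 (by norm_num)
        rw [k1]
        calc (W1 * B) ^ 3 * (1 / ((p : ℝ) * √p)) * (1 / √(Lg y) ^ 3) ≤
            (W1 * B) ^ 3 * (1 / ((p : ℝ) * √p)) * (1 / √(Lg y)) := by gcongr
          _ = (W1 * B) ^ 3 / √(Lg y) * (1 / ((p : ℝ) * √p)) := by ring
      refine (Finset.sum_le_sum h3).trans ?_
      rw [← Finset.mul_sum]
      have h4 : ∑ p ∈ (Ico 0 (y + 1)).filter Nat.Prime, 1 / ((p : ℝ) * √p) ≤ T :=
        summable_three.sum_le_tsum _ (fun n _ => by positivity)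
      calc (W1 * B) ^ 3 / √(Lg y) * ∑ p ∈ (Ico 0 (y + 1)).filter Nat.Prime, 1 / ((p : ℝ) * √p) ≤
          (W1 * B) ^ 3 / √(Lg y) * T := by gcongr
        _ = (W1 * B) ^ 3 * T / √(Lg y) := by ring
  · filter_upwards [eventually_ge_atTop 3] with y hy c
    have hL0 := Lg_pos hy
    have hs0 : 0 < √(Lg y) := Real.sqrt_pos.2 hL0
    rw [zero_add, SS_Zc N θ hy, ← Finset.sum_sub_distrib]
    have e : W * (K0 + B) / √(Lg y) = ∑ a, ∑ i ∈ Finset.range (N + 1), |θ a i| * ((K0 + B) / √(Lg y)) := by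
      rw [mul_div_assoc, hW]
      unfold TH
      rw [Finset.sum_mul]
      exact Finset.sum_congr rfl fun a _ => Finset.sum_mul _ _ _
    rw [e]
    refine (Finset.abs_sum_le_sum_abs _ _).trans (Finset.sum_le_sum fun a _ => ?_)
    rw [← Finset.sum_sub_distrib]
    refine (Finset.abs_sum_le_sum_abs _ _).trans (Finset.sum_le_sum fun i _ => ?_)
    rw [← mul_sub, abs_mul]
    refine mul_le_mul_of_nonneg_left ?_ (abs_nonneg _)
    obtain ⟨h1, h2, h3, h4⟩ := nd_spec hy (pt N i)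
    have h5 := hQ a (nd y (pt N i)) c h1
    have h6 := hQ a (nd y (pt N i) + 1) c (by omega)
    refine lpath_near (fun n => Q a n c) hy h1 h2 (pt N i) h3 h4 (by linarith) ?_
    have h7 := SS_add (Z a) (Nat.zero_le (nd y (pt N i) + 1)) (Nat.le_succ (nd y (pt N i) + 1)) c
    have h8 := SS_one (h.sys a) (nd y (pt N i) + 1) c
    have h9 : Q a (nd y (pt N i) + 1) c - SS (Z a) 0 (nd y (pt N i) + 1) c =
        (Q a (nd y (pt N i) + 1) c - SS (Z a) 0 (nd y (pt N i) + 1 + 1) c) +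
        SS (Z a) (nd y (pt N i) + 1) (nd y (pt N i) + 1 + 1) c := by
      rw [← h7]
      ring
    rw [h9]
    exact (abs_add_le _ _).trans (add_le_add h6 h8)

end Pool.Agent.U581.BS
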