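import Pool.Agent.U581.BS.Gen1

/-!
# Tightness and the invariance principle on the double logarithmic scale
-/

set_option autoImplicit false
set_option linter.unusedSectionVars false

namespace Pool.Agent.U581.BS

open Finset Filter Topology Pool.Agent.Y722.HS Pool.Agent.X280.BP MeasureTheory ProbabilityTheory
  Pool.Agent.U581.BM Pool.Agent.U581.FL
open scoped BoundedContinuousFunction NNReal

variable {ι : Type} [Fintype ι] [DecidableEq ι] {k : ℕ} {Z : Fin k → ∀ p : ℕ, (ι → ZMod p) → ℝ}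
  {B K1 : ℝ}

/-- the maximal inequality on blocks -/
theorem sys_max {Z0 : ∀ p : ℕ, (ι → ZMod p) → ℝ} (h : Sys Z0 B) {a b x H : ℕ} (hab : a ≤ b)
    (hb : b ≤ x) (hx : 2 ^ Fintype.card ι * x ^ 10 ≤ 2 * H + 1) :
    ∃ M : (ι → ℤ) → ℝ, EB H M ≤ 2916 * (91 * B ^ 4) * LL a b ^ 2 ∧
      ∀ c t, a ≤ t → t ≤ b → SS Z0 a t c ^ 4 ≤ M c := by
  classical
  have e1 : ∀ a b c, ∑ i ∈ Ico a b, (if i.Prime then Z0 i (red i c) else 0) = SS Z0 a b c := by
    intro a b c
    unfold SS
    rw [Finset.sum_filter]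
  have e2 : ∀ a b, ∑ i ∈ Ico a b, (if i.Prime then (1 : ℝ) / i else 0) = LL a b := by
    intro a b
    unfold LL
    rw [Finset.sum_filter]
  have hB0 : 0 < B := lt_of_lt_of_le one_pos h.one_le
  obtain ⟨M, h1, h2⟩ := chain H (fun i c => if i.Prime then Z0 i (red i c) else 0)
    (fun i => if i.Prime then (1 : ℝ) / i else 0) (fun i => by positivity) (91 * B ^ 4)
    (by positivity) b (fun a' b' _ hb' => by
      simp only [e1, e2]
      exact h.four (hb'.trans hb) hx) (b - a) a b hab le_rfl le_rfl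
  rw [e2] at h1
  refine ⟨M, h1, fun c t hat ht => ?_⟩
  have := h2 c t hat ht
  rwa [e1] at this

theorem block_prob {Z0 : ∀ p : ℕ, (ι → ZMod p) → ℝ} (h : Sys Z0 B) {a b x H : ℕ} (hab : a ≤ b)
    (hb : b ≤ x) (hx : 2 ^ Fintype.card ι * x ^ 10 ≤ 2 * H + 1) {r : ℝ} (hr : 0 < r) :
    (nu H).real {c : ι → ℤ | ∃ t, a ≤ t ∧ t ≤ b ∧ r < |SS Z0 a t c|} ≤
      2916 * (91 * B ^ 4) * LL a b ^ 2 / r ^ 4 := by
  obtain ⟨M, hM1, hM2⟩ := sys_max h hab hb hx
  have hM0 : ∀ c, 0 ≤ M c := fun c => by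
    have h1 := hM2 c a le_rfl hab
    have h2 : (0 : ℝ) ≤ SS Z0 a a c ^ 4 := by
      have := sq_nonneg (SS Z0 a a c ^ 2)
      nlinarith
    linarith
  refine (nu_markov H _ M (pow_pos hr 4) hM0 ?_).trans (div_le_div_of_nonneg_right hM1 (by positivity))
  rintro c ⟨t, h1, h2, h3⟩
  have h4 := pow_le_pow_left₀ hr.le h3.le 4
  rw [(show Even 4 by decide).pow_abs] at h4
  exact h4.trans (hM2 c t h1 h2)

theorem LL_sub {a b : ℕ} (h : a ≤ b) : LL a b = LL 0 b - LL 0 a := by
  unfold LL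
  rw [Finset.sum_filter, Finset.sum_filter, Finset.sum_filter, eq_sub_iff_add_eq, add_comm]
  exact Finset.sum_Ico_consecutive _ (Nat.zero_le _) h

theorem Lg_lt {m n : ℕ} (hm : 2 ≤ m) (h : m < n) : Lg m < Lg n :=
  lt_of_lt_of_le (Lg_step hm).1 (Lg_mono (by omega) (by omega))

/-- the oscillation in a block -/
theorem lpath_block (Q : ℕ → ℝ) {y : ℕ} (hy : 3 ≤ y) {s t s' : unitInterval} (hst : s ≤ t)
    (hts : t ≤ s') {E : ℝ} (hE : ∀ n, nd y s ≤ n → n ≤ nd y s' + 2 → |Q n - Q (nd y s)| ≤ E) :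
    |lpath Q y t - lpath Q y s| ≤ 2 * (E / √(Lg y)) := by
  have hL := Lg_pos hy
  have hst' : (s : ℝ) * Lg y ≤ t * Lg y := mul_le_mul_of_nonneg_right hst hL.le
  have hts' : (t : ℝ) * Lg y ≤ s' * Lg y := mul_le_mul_of_nonneg_right hts hL.le
  obtain ⟨a1, a2, a3, a4⟩ := nd_spec hy s
  obtain ⟨m1, m2, m3, m4⟩ := nd_spec hy t
  obtain ⟨b1, b2, b3, b4⟩ := nd_spec hy s'
  set a := nd y s with ha
  set m := nd y t with hm
  set b := nd y s' with hb
  have hmb : m ≤ b + 1 := by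
    by_contra hc
    push Not at hc
    have := Lg_lt (by omega : 2 ≤ b + 1) hc
    linarith
  have hab : a ≤ b + 1 := by
    by_contra hc
    push Not at hc
    have := Lg_lt (by omega : 2 ≤ b + 1) hc
    linarith
  have h1 : Lg (max m a) ≤ t * Lg y := by
    rcases le_total m a with h | h
    · rw [max_eq_right h]
      linarith
    · rw [max_eq_left h]
      exact m3
  have h2 : t * Lg y ≤ Lg (max m a + 1) :=
    m4.trans (Lg_mono (by omega) (by have := le_max_left m a; omega))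
  have h3 := lpath_near Q hy (by have := le_max_left m a; omega) (by
    rcases le_total m a with h | h
    · rw [max_eq_right h]; exact a2
    · rw [max_eq_left h]; exact m2) t h1 h2 (x := Q a) (E := E)
    (hE _ (le_max_right _ _) (by
      rcases le_total m a with h | h
      · rw [max_eq_right h]; omega
      · rw [max_eq_left h]; omega))
    (hE _ (by have := le_max_right m a; omega) (by
      rcases le_total m a with h | h
      · rw [max_eq_right h]; omega
      · rw [max_eq_left h]; omega))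
  have h4 := lpath_near Q hy a1 a2 s a3 a4 (x := Q a) (E := E) (hE _ le_rfl (by omega))
    (hE _ (by omega) (by omega))
  have h5 : lpath Q y t - lpath Q y s = (lpath Q y t - Q a / √(Lg y)) -
      (lpath Q y s - Q a / √(Lg y)) := by ring
  rw [h5]
  refine (abs_sub _ _).trans ?_
  linarith

/-- **tightness** -/
theorem tight_vs (h : VS Z B K1) (Q : Fin k → ℕ → (ι → ℤ) → ℝ) {K0 : ℝ} (hK0 : 0 ≤ K0)
    (hQ : ∀ a y c, 2 ≤ y → |Q a y c - SS (Z a) 0 (y + 1) c| ≤ K0) (ys Hs : ℕ → ℕ)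
    (hys : Tendsto ys atTop atTop)
    (hHs : ∀ᶠ j in atTop, 2 ^ Fintype.card ι * (ys j + 3) ^ 10 ≤ 2 * Hs j + 1) (a : Fin k)
    {ε : ℝ} (hε : 0 < ε) {η : ℝ} (hη : 0 < η) : ∃ N0 : ℕ, ∀ N ≥ N0, ∀ᶠ j in atTop,
      (nu (Hs j)).real {c : ι → ℤ | ε < ‖lpath (fun n => Q a n c) (ys j) -
        interp N (lpath (fun n => Q a n c) (ys j))‖} ≤ η := by
  obtain ⟨C, hC, hLLg⟩ := LL_Lg'
  have hB0 : 0 < B := lt_of_lt_of_le one_pos h.one
  obtain ⟨lam, hlamd⟩ : ∃ lam, lam = ε / 8 := ⟨_, rfl⟩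
  have hlam : 0 < lam := by rw [hlamd]; positivity
  obtain ⟨A, hA⟩ : ∃ A, A = 2916 * (91 * B ^ 4) := ⟨_, rfl⟩
  have hA0 : 0 ≤ A := by rw [hA]; positivity
  obtain ⟨N1, hN1⟩ := exists_nat_ge (4 * A / lam ^ 4 / η)
  refine ⟨max N1 1, fun N hN => ?_⟩
  have hN0 : 0 < N := lt_of_lt_of_le one_pos ((le_max_right _ _).trans hN)
  have hNr : (0 : ℝ) < N := by exact_mod_cast hN0
  have hKN : 4 * A / lam ^ 4 / N ≤ η := by
    have h1 : (N1 : ℝ) ≤ N := by exact_mod_cast (le_max_left _ _).trans hN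
    rw [div_le_iff₀ hη] at hN1
    rw [div_le_iff₀ hNr]
    nlinarith
  have hLt : Tendsto (fun j => Lg (ys j)) atTop atTop := tendsto_Lg.comp hys
  have hst : Tendsto (fun j => √(Lg (ys j))) atTop atTop := Real.tendsto_sqrt_atTop.comp hLt
  filter_upwards [hHs, hLt.eventually_ge_atTop (N * (3 + 2 * C)),
    hst.eventually_ge_atTop (16 * K0 / ε), hys.eventually_ge_atTop 3] with j hj1 hj2 hj3 hy
  set y := ys j with hyd
  have hL := Lg_pos hy
  set s := √(Lg y) with hs
  have hs0 : 0 < s := Real.sqrt_pos.2 hL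
  have hs2 : s ^ 2 = Lg y := Real.sq_sqrt hL.le
  have hlams : 0 < lam * s := by positivity
  set S : ℕ → Set (ι → ℤ) := fun i => {c : ι → ℤ | ∃ t, nd y (pt N i) + 1 ≤ t ∧
    t ≤ nd y (pt N (i + 1)) + 3 ∧ lam * s < |SS (Z a) (nd y (pt N i) + 1) t c|} with hS
  have hval : ∀ i, i < N → ((pt N i : unitInterval) : ℝ) = i / N ∧
      ((pt N (i + 1) : unitInterval) : ℝ) = (i + 1) / N := by
    intro i hi
    refine ⟨pt_val hN0 hi.le, ?_⟩
    rw [pt_val hN0 hi]
    push_cast
    ring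
  have hab : ∀ i, i < N → nd y (pt N i) + 1 ≤ nd y (pt N (i + 1)) + 3 := by
    intro i hi
    obtain ⟨a1, a2, a3, a4⟩ := nd_spec hy (pt N i)
    obtain ⟨b1, b2, b3, b4⟩ := nd_spec hy (pt N (i + 1))
    by_contra hc
    push Not at hc
    have h1 := Lg_lt (m := nd y (pt N (i + 1)) + 1) (n := nd y (pt N i)) (by omega) (by omega)
    obtain ⟨v1, v2⟩ := hval i hi
    rw [v1] at a3
    rw [v2] at b4
    have h2 : (i : ℝ) / N * Lg y ≤ (i + 1) / N * Lg y := by
      apply mul_le_mul_of_nonneg_right _ hL.le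
      apply div_le_div_of_nonneg_right _ hNr.le
      linarith
    linarith
  have hmax : ∀ i < N, (nu (Hs j)).real (S i) ≤ 4 * A / lam ^ 4 / N ^ 2 := by
    intro i hi
    obtain ⟨a1, a2, a3, a4⟩ := nd_spec hy (pt N i)
    obtain ⟨b1, b2, b3, b4⟩ := nd_spec hy (pt N (i + 1))
    obtain ⟨v1, v2⟩ := hval i hi
    refine (block_prob (h.sys a) (hab i hi) (x := y + 3) (by omega) hj1 hlams).trans ?_
    have h1 : LL (nd y (pt N i) + 1) (nd y (pt N (i + 1)) + 3) ≤ 2 * (Lg y / N) := by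
      rw [LL_sub (hab i hi)]
      have c1 := (abs_le.1 (hLLg (nd y (pt N (i + 1)) + 2) (by omega))).2
      have c2 := (abs_le.1 (hLLg (nd y (pt N i)) a1)).1
      have c3 := (Lg_step b1).2
      have c4 := (Lg_step (by omega : 2 ≤ nd y (pt N (i + 1)) + 1)).2
      have c5 := (Lg_step a1).2
      rw [v1] at a4
      rw [v2] at b3
      have c6 : ((i : ℝ) + 1) / N * Lg y = i / N * Lg y + Lg y / N := by ring
      have c7 : 3 + 2 * C ≤ Lg y / N := by
        rw [le_div_iff₀ hNr]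
        linarith
      linarith
    have h2 : LL (nd y (pt N i) + 1) (nd y (pt N (i + 1)) + 3) ^ 2 ≤ (2 * (Lg y / N)) ^ 2 :=
      pow_le_pow_left₀ (LL_nonneg _ _) h1 2
    have h3 : (lam * s) ^ 4 = lam ^ 4 * Lg y ^ 2 := by
      rw [mul_pow, show s ^ 4 = (s ^ 2) ^ 2 by ring, hs2]
    rw [← hA, h3]
    calc A * LL (nd y (pt N i) + 1) (nd y (pt N (i + 1)) + 3) ^ 2 / (lam ^ 4 * Lg y ^ 2)
        ≤ A * (2 * (Lg y / N)) ^ 2 / (lam ^ 4 * Lg y ^ 2) := by gcongr
      _ = _ := by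
        field_simp
        ring
  have hsub : {c : ι → ℤ | ε < ‖lpath (fun n => Q a n c) y -
      interp N (lpath (fun n => Q a n c) y)‖} ⊆ ⋃ i ∈ Finset.range N, S i := by
    intro c hlt
    by_contra hcon
    rw [hS] at hcon
    simp only [Set.mem_iUnion, Set.mem_ofPred_eq, not_exists, not_and, not_lt,
      Finset.mem_range] at hcon
    have h1 := interp_err hN0 (lpath (fun n => Q a n c) y)
      (ε := 2 * ((2 * K0 + lam * s) / s)) (by positivity) (fun i hi t ht1 ht2 => by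
        obtain ⟨v1, v2⟩ := hval i hi
        refine lpath_block (fun n => Q a n c) hy (s := pt N i) (t := t) (s' := pt N (i + 1)) ?_ ?_
          (E := 2 * K0 + lam * s) (fun n hn1 hn2 => ?_)
        · change ((pt N i : unitInterval) : ℝ) ≤ t
          rw [v1, div_le_iff₀ hNr]
          linarith
        · change (t : ℝ) ≤ ((pt N (i + 1) : unitInterval) : ℝ)
          rw [v2, le_div_iff₀ hNr]
          linarith
        · have a1 := (nd_spec hy (pt N i)).1
          have c1 := hQ a n c (by omega)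
          have c2 := hQ a (nd y (pt N i)) c a1
          have c3 := hcon i hi (n + 1) (by omega) (by omega)
          have c4 := SS_add (Z a) (Nat.zero_le (nd y (pt N i) + 1)) (show nd y (pt N i) + 1 ≤ n + 1 by omega) c
          have c5 : Q a n c - Q a (nd y (pt N i)) c = (Q a n c - SS (Z a) 0 (n + 1) c) -
              (Q a (nd y (pt N i)) c - SS (Z a) 0 (nd y (pt N i) + 1) c) +
              SS (Z a) (nd y (pt N i) + 1) (n + 1) c := by
            rw [← c4]
            ring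
          rw [c5]
          refine (abs_add_le _ _).trans (add_le_add ((abs_sub _ _).trans ?_) c3)
          linarith)
    have h4 : 2 * (2 * ((2 * K0 + lam * s) / s)) ≤ ε := by
      have h5 : 16 * K0 ≤ ε * s := by
        rw [div_le_iff₀ hε] at hj3
        linarith
      have h6 : (2 * K0 + lam * s) / s ≤ ε / 4 := by
        rw [div_le_iff₀ hs0, hlamd]
        linarith
      linarith
    exact absurd hlt (not_lt.2 (h1.trans h4))
  calc _ ≤ (nu (Hs j)).real (⋃ i ∈ Finset.range N, S i) := measureReal_mono hsub (measure_ne_top _ _)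
    _ ≤ ∑ i ∈ Finset.range N, (nu (Hs j)).real (S i) := measureReal_biUnion_finset_le _ _
    _ ≤ ∑ i ∈ Finset.range N, 4 * A / lam ^ 4 / N ^ 2 :=
        Finset.sum_le_sum fun i hi => hmax i (Finset.mem_range.1 hi)
    _ = 4 * A / lam ^ 4 / N := by
        rw [Finset.sum_const, Finset.card_range, nsmul_eq_mul]
        field_simp
    _ ≤ η := hKN

section

variable [MeasurableSpace C(unitInterval, ℝ)] [BorelSpace C(unitInterval, ℝ)]
  {Ω : Type*} [MeasurableSpace Ω] {μ : Measure Ω} [IsProbabilityMeasure μ]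
  {W : Fin k → ℝ≥0 → Ω → ℝ}

/-- **the invariance principle** -/
theorem vs_main (h : VS Z B K1) (Q : Fin k → ℕ → (ι → ℤ) → ℝ) {K0 : ℝ} (hK0 : 0 ≤ K0)
    (hQ : ∀ a y c, 2 ≤ y → |Q a y c - SS (Z a) 0 (y + 1) c| ≤ K0) (hW : IndBrown W μ)
    (F : (Fin k → C(unitInterval, ℝ)) →ᵇ ℝ) {ε : ℝ} (hε : 0 < ε) :
    ∃ K : ℕ, ∀ y H : ℕ, K ≤ y → y ^ K ≤ H →
      |EB H (fun c => F (fun a => lpath (fun n => Q a n c) y)) -
        ∫ ω, F (fun a => bpath (W a) ω) ∂μ| ≤ ε := by
  by_contra hcon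
  push Not at hcon
  choose ys Hs h1 h2 h3 using hcon
  have hys : Tendsto ys atTop atTop := tendsto_atTop_mono h1 tendsto_id
  have hpow : ∀ K j, K ≤ j → 1 ≤ j → ys j ^ K ≤ Hs j := by
    intro K j hK hj
    exact (Nat.pow_le_pow_right (by have := h1 j; omega) hK).trans (h2 j)
  have hHs : ∀ᶠ j in atTop, 2 ^ Fintype.card ι * (ys j + 3) ^ 10 ≤ 2 * Hs j + 1 := by
    filter_upwards [eventually_ge_atTop (2 ^ Fintype.card ι + 1024)] with j hj
    have hp0 : 0 < 2 ^ Fintype.card ι := by positivity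
    have hy1 : j ≤ ys j := h1 j
    generalize hce : 2 ^ Fintype.card ι = ce at *
    have h4 : (ys j + 3) ^ 10 ≤ 1024 * ys j ^ 10 := by
      calc (ys j + 3) ^ 10 ≤ (2 * ys j) ^ 10 := Nat.pow_le_pow_left (by omega) _
        _ = 1024 * ys j ^ 10 := by ring
    have h5 : ce * (ys j + 3) ^ 10 ≤ ys j ^ 12 := by
      calc ce * (ys j + 3) ^ 10 ≤ ys j * (ys j * ys j ^ 10) :=
            Nat.mul_le_mul (by omega) (h4.trans (Nat.mul_le_mul_right _ (by omega)))
        _ = ys j ^ 12 := by ring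
    have h6 := hpow 12 j (by omega) (by omega)
    omega
  have hlim := donskerV (ν := fun j => nu (ι := ι) (Hs j)) (P := μ)
    (X := fun j c a => lpath (fun n => Q a n c) (ys j))
    (Z := fun ω a => bpath (W a) ω) (fun j => meas_all _) (bpathV_aem hW)
    (fun N θ => by
      rw [bcharV hW N θ]
      simp only [nu_intc]
      rw [Metric.tendsto_atTop]
      intro δ hδ
      obtain ⟨K, hK⟩ := fdd_vs h Q hQ N θ (half_pos hδ)
      obtain ⟨J, hJ⟩ := eventually_atTop.1 (hys.eventually hK)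
      refine ⟨max J (K + 1), fun j hj => ?_⟩
      have h4 := hJ j ((le_max_left _ _).trans hj) (Hs j)
        (hpow K j (by have := (le_max_right J (K + 1)).trans hj; omega)
          (by have := (le_max_right J (K + 1)).trans hj; omega))
      rw [dist_eq_norm]
      exact lt_of_le_of_lt h4 (by linarith))
    (fun a ε hε η hη => tight_vs h Q hK0 hQ ys Hs hys hHs a hε hη) F
  simp only [nu_int] at hlim
  rw [Metric.tendsto_atTop] at hlim
  obtain ⟨J, hJ⟩ := hlim ε hε
  have h4 := hJ J le_rfl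
  rw [Real.dist_eq] at h4
  exact absurd h4 (not_lt.2 (h3 J).le)

end

end Pool.Agent.U581.BS
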