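import Pool.Agent.U581.BS.Gen2
import Pool.Agent.X280.BP.GaussFam

/-!
# The invariance principle for the products of Birch and Swinnerton-Dyer
-/

set_option autoImplicit false
set_option linter.unusedSectionVars false

namespace Pool.Agent.U581.BS

open Finset Filter Topology Pool.Agent.Y722.HS Pool.Agent.X280.BP MeasureTheory ProbabilityTheory
  Pool.Agent.U581.BM Pool.Agent.U581.FL Pool.Agent.U62.BM

open scoped BoundedContinuousFunction NNReal

variable {ι : Type} [Fintype ι] [DecidableEq ι]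
variable {a : ∀ p : ℕ, (ι → ZMod p) → ℝ} {G : ∀ p : ℕ, (ι → ZMod p) → Prop} {r C : ℝ}

/-- minus the centred local data -/
noncomputable def nZ (a : ∀ p : ℕ, (ι → ZMod p) → ℝ) (G : ∀ p : ℕ, (ι → ZMod p) → Prop)
    (_ : Fin 1) (p : ℕ) (c : ι → ZMod p) : ℝ := (-1) * ZZ a G p c

theorem nZ_sys (D : Dat a G r C) (i : Fin 1) : Sys (nZ a G i) 10 where
  one_le := by norm_num
  bd := by
    intro p hp c
    unfold nZ
    rw [neg_one_mul, abs_neg]
    exact D.sys.bd p hp c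
  mean := by
    intro p hp _
    unfold nZ
    rw [EM_mulF, D.sys.mean p hp, mul_zero]

theorem nZ_vs (D : Dat a G r C) : ∃ K1, VS (nZ a G) 10 K1 := by
  obtain ⟨K, hK, h⟩ := var_near D
  refine ⟨K, by norm_num, nZ_sys D, hK, fun i j x => ?_⟩
  have hij : i = j := Subsingleton.elim _ _
  rw [if_pos hij]
  subst hij
  refine le_trans (le_of_eq ?_) (h x)
  congr 2
  refine Finset.sum_congr rfl fun p hp => ?_
  have hpp := (Finset.mem_filter.mp hp).2
  have : NeZero p := ⟨hpp.ne_zero⟩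
  rw [vv_eq, EMt_eq]
  congr 1
  funext c
  unfold nZ
  ring

variable [MeasurableSpace C(unitInterval, ℝ)] [BorelSpace C(unitInterval, ℝ)]
  {Ω : Type*} [MeasurableSpace Ω] {μ : Measure Ω} [IsProbabilityMeasure μ]
  {W : ℝ≥0 → Ω → ℝ}

/-- the invariance principle for one process with a drift -/
theorem dat_main (D : Dat a G r C) (Q : ℕ → (ι → ℤ) → ℝ) {K2 : ℝ}
    (hQ : ∀ y c, |Q y c - logP a G y c| ≤ K2) (hW : IsBrownianReal W μ)
    (F : C(unitInterval, ℝ) →ᵇ ℝ) {ε : ℝ} (hε : 0 < ε) :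
    ∃ K : ℕ, ∀ y H : ℕ, K ≤ y → y ^ K ≤ H →
      |EB H (fun c => F (lpath (fun n => Q n c - (r + 1 / 2) * Lg n) y)) -
        ∫ ω, F (bpath W ω) ∂μ| ≤ ε := by
  obtain ⟨K0, hK0, hnear⟩ := D.near
  obtain ⟨K1, hV⟩ := nZ_vs D
  obtain ⟨C2, hC2, hLL⟩ := LL_Lg'
  have hK2 : 0 ≤ K2 := (abs_nonneg _).trans (hQ 0 0)
  have hWW : IndBrown (fun _ : Fin 1 => W) μ := ⟨fun _ => hW, iIndepFun.of_subsingleton⟩
  have hQ' : ∀ (i : Fin 1) (n : ℕ) (c : ι → ℤ), 2 ≤ n →
      |(Q n c - (r + 1 / 2) * Lg n) - SS (nZ a G i) 0 (n + 1) c| ≤ K0 + K2 + |r + 1 / 2| * C2 := by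
    intro i n c hn
    have e : SS (nZ a G i) 0 (n + 1) c = - SS (ZZ a G) 0 (n + 1) c := by
      unfold SS nZ
      rw [← Finset.mul_sum, neg_one_mul]
    rw [e]
    have h1 := hnear n c
    have h2 := hQ n c
    have h3 : |(r + 1 / 2) * (LL 0 (n + 1) - Lg n)| ≤ |r + 1 / 2| * C2 := by
      rw [abs_mul]
      exact mul_le_mul_of_nonneg_left (hLL n hn) (abs_nonneg _)
    have e2 : Q n c - (r + 1 / 2) * Lg n - -SS (ZZ a G) 0 (n + 1) c =
        (logP a G n c + SS (ZZ a G) 0 (n + 1) c - (r + 1 / 2) * LL 0 (n + 1)) +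
        (Q n c - logP a G n c) + (r + 1 / 2) * (LL 0 (n + 1) - Lg n) := by ring
    rw [e2]
    refine (abs_add_le _ _).trans (add_le_add ((abs_add_le _ _).trans (add_le_add h1 h2)) h3)
  exact vs_main hV (fun _ n c => Q n c - (r + 1 / 2) * Lg n) (by positivity) hQ' hWW
    (F.compContinuous ⟨fun f => f 0, continuous_apply 0⟩) hε

end Pool.Agent.U581.BS
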