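import Pool.Agent.U581.FL.Wts
import Pool.Agent.X280.BP.Main

/-!
# Polygonal paths on the double logarithmic scale
-/

set_option autoImplicit false

namespace Pool.Agent.U581.BS

open Real MeasureTheory Filter Topology Pool.Agent.U581.BM Pool.Agent.U581.FL
  Pool.Agent.X280.BP

/-- the value at the time `τ` of the polygon with the values `g k` at the times `ν k` -/
noncomputable def npoly (ν g : ℕ → ℝ) (Y : ℕ) (τ : ℝ) : ℝ :=
  g 0 + ∑ k ∈ Finset.range Y, (g (k + 1) - g k) * cl ((τ - ν k) / (ν (k + 1) - ν k))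

theorem npoly_eq {ν : ℕ → ℝ} (hν : StrictMono ν) (g : ℕ → ℝ) {Y m : ℕ} (hm : m < Y) {τ : ℝ}
    (h1 : ν m ≤ τ) (h2 : τ ≤ ν (m + 1)) :
    npoly ν g Y τ = g m + (g (m + 1) - g m) * ((τ - ν m) / (ν (m + 1) - ν m)) := by
  have hd : ∀ k, 0 < ν (k + 1) - ν k := fun k => sub_pos.2 (hν (Nat.lt_succ_self k))
  unfold npoly
  rw [sum_split (T := fun k => (g (k + 1) - g k) * cl ((τ - ν k) / (ν (k + 1) - ν k)))
    (U := fun k => g (k + 1) - g k) hm (fun k hk => ?_) (fun k hk => ?_)]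
  · rw [Finset.sum_range_sub, cl_self (div_nonneg (by linarith) (hd m).le)
      (by rw [div_le_one (hd m)]; linarith)]
    ring
  · have h3 : ν (k + 1) ≤ ν m := hν.monotone (by omega)
    rw [cl_one, mul_one]
    rw [le_div_iff₀ (hd k)]
    linarith
  · have h3 : ν (m + 1) ≤ ν k := hν.monotone (by omega)
    rw [cl_zero, mul_zero]
    exact div_nonpos_of_nonpos_of_nonneg (by linarith) (hd k).le

theorem node_ex (ν : ℕ → ℝ) {Y : ℕ} (hY : 0 < Y) {τ : ℝ} (h0 : ν 0 ≤ τ) (h1 : τ ≤ ν Y) :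
    ∃ m, m < Y ∧ ν m ≤ τ ∧ τ ≤ ν (m + 1) := by
  induction Y, (Nat.succ_le_of_lt hY) using Nat.le_induction with
  | base => exact ⟨0, by omega, h0, h1⟩
  | succ n hn ih =>
    rcases le_total τ (ν n) with h2 | h2
    · obtain ⟨m, h3, h4, h5⟩ := ih (by omega) h2
      exact ⟨m, by omega, h4, h5⟩
    · exact ⟨n, by omega, h2, h1⟩

/-- a value of the polygon near the values at the nodes -/
theorem npoly_near {ν : ℕ → ℝ} (hν : StrictMono ν) (g : ℕ → ℝ) {Y m : ℕ} (hm : m < Y) {τ : ℝ}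
    (h1 : ν m ≤ τ) (h2 : τ ≤ ν (m + 1)) {x E : ℝ} (h3 : |g m - x| ≤ E) (h4 : |g (m + 1) - x| ≤ E) :
    |npoly ν g Y τ - x| ≤ E := by
  have hd : 0 < ν (m + 1) - ν m := sub_pos.2 (hν (Nat.lt_succ_self m))
  rw [npoly_eq hν g hm h1 h2]
  set s := (τ - ν m) / (ν (m + 1) - ν m) with hs
  have hs0 : 0 ≤ s := div_nonneg (by linarith) hd.le
  have hs1 : s ≤ 1 := by rw [hs, div_le_one hd]; linarith
  have e : g m + (g (m + 1) - g m) * s - x = (1 - s) * (g m - x) + s * (g (m + 1) - x) := by ring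
  rw [e]
  refine (abs_add_le _ _).trans ?_
  rw [abs_mul, abs_mul, abs_of_nonneg hs0, abs_of_nonneg (by linarith : 0 ≤ 1 - s)]
  nlinarith

/-- the logarithmic scale, shifted -/
noncomputable def lgs (k : ℕ) : ℝ := Lg (k + 2)

theorem log_pos' {n : ℕ} (hn : 2 ≤ n) : 0 < Real.log n :=
  Real.log_pos (by exact_mod_cast (by omega : 1 < n))

theorem Lg_step {n : ℕ} (hn : 2 ≤ n) : Lg n < Lg (n + 1) ∧ Lg (n + 1) ≤ Lg n + 1 := by
  have h0 := log_pos' hn
  have hn0 : (0 : ℝ) < n := by exact_mod_cast (by omega : 0 < n)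
  have hn2 : (2 : ℝ) ≤ n := by exact_mod_cast hn
  have h1 : Real.log n < Real.log ((n + 1 : ℕ) : ℝ) := by
    apply Real.log_lt_log hn0
    push_cast
    linarith
  constructor
  · unfold Lg
    exact Real.log_lt_log h0 h1
  · have h2 : Real.log ((n + 1 : ℕ) : ℝ) ≤ 2 * Real.log n := by
      have h3 : Real.log (((n : ℝ)) ^ 2) = 2 * Real.log n := by
        rw [Real.log_pow]
        norm_num
      rw [← h3]
      apply Real.log_le_log (by positivity)
      push_cast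
      nlinarith
    unfold Lg
    have h4 : Real.log (Real.log ((n + 1 : ℕ) : ℝ)) ≤ Real.log (2 * Real.log n) :=
      Real.log_le_log (h0.trans h1) h2
    rw [Real.log_mul (by norm_num) h0.ne'] at h4
    have h5 : Real.log 2 ≤ 1 := by
      have := Real.log_two_lt_d9
      linarith
    linarith

theorem lgs_mono : StrictMono lgs := strictMono_nat_of_lt_succ fun k => by
  unfold lgs
  exact (Lg_step (by omega : 2 ≤ k + 2)).1

theorem lgs_zero : lgs 0 < 0 := by
  unfold lgs Lg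
  apply Real.log_neg (log_pos' le_rfl)
  have := Real.log_two_lt_d9
  norm_num
  linarith

/-- the path -/
noncomputable def lpath (f : ℕ → ℝ) (y : ℕ) : C(unitInterval, ℝ) where
  toFun t := npoly lgs (fun k => f (k + 2)) (y - 2) (t * Lg y) / √(Lg y)
  continuous_toFun := by
    unfold npoly cl
    fun_prop

theorem lpath_apply (f : ℕ → ℝ) (y : ℕ) (t : unitInterval) :
    lpath f y t = npoly lgs (fun k => f (k + 2)) (y - 2) (t * Lg y) / √(Lg y) := rfl

/-- the node of a time -/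
theorem node_time {y : ℕ} (hy : 3 ≤ y) (t : unitInterval) :
    ∃ m, 2 ≤ m ∧ m < y ∧ Lg m ≤ t * Lg y ∧ t * Lg y ≤ Lg (m + 1) := by
  have hL := Lg_pos hy
  obtain ⟨m, h1, h2, h3⟩ := node_ex lgs (Y := y - 2) (by omega) (τ := t * Lg y)
    (lgs_zero.le.trans (mul_nonneg t.2.1 hL.le)) (by
      have : lgs (y - 2) = Lg y := by
        unfold lgs
        rw [Nat.sub_add_cancel (by omega)]
      rw [this]
      exact mul_le_of_le_one_left hL.le t.2.2)
  exact ⟨m + 2, by omega, by omega, h2, h3⟩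

/-- the path is near a value -/
theorem lpath_near (f : ℕ → ℝ) {y m : ℕ} (hy : 3 ≤ y) (hm2 : 2 ≤ m) (hmy : m < y) (t : unitInterval)
    (h1 : Lg m ≤ t * Lg y) (h2 : t * Lg y ≤ Lg (m + 1)) {x E : ℝ} (h3 : |f m - x| ≤ E)
    (h4 : |f (m + 1) - x| ≤ E) : |lpath f y t - x / √(Lg y)| ≤ E / √(Lg y) := by
  have hL := Lg_pos hy
  have hs : 0 < √(Lg y) := Real.sqrt_pos.2 hL
  rw [lpath_apply, ← sub_div, abs_div, abs_of_pos hs]
  apply div_le_div_of_nonneg_right _ hs.le
  obtain ⟨k, rfl⟩ : ∃ k, m = k + 2 := ⟨m - 2, by omega⟩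
  exact npoly_near lgs_mono (fun k => f (k + 2)) (by omega) h1 h2 h3 h4

end Pool.Agent.U581.BS
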